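import Pool.Agent.H294DM.Stmts

set_option autoImplicit false

/-! Task Count: a congruence class modulo `p` has positive proportion in the boxes. -/

namespace H294DM

open MvPolynomial Pool.Agent.H936R2 Pool.Agent.H927R2.RD Function

theorem box_finite' {α β : Type} [Fintype α] [Fintype β] (H : ℕ) :
    {F : α → β → ℤ | ∀ m e, |F m e| ≤ H}.Finite := by
  classical
  apply Set.Finite.subset
    (Fintype.piFinset (fun _ : α => Fintype.piFinset (fun _ : β =>
      Finset.Icc (-(H : ℤ)) H))).finite_toSet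
  intro F hF
  simp only [Finset.mem_coe, Fintype.mem_piFinset, Finset.mem_Icc]
  intro m e
  exact abs_le.1 (hF m e)

theorem count_aux' {α β : Type} [Fintype α] [Fintype β] (Q : ℕ) (hQ : 0 < Q) (a : α → β → ℤ)
    (H : ℕ) : ((2 * H + 1) / Q) ^ (Fintype.card α * Fintype.card β) ≤
      {F : α → β → ℤ | (∀ m e, |F m e| ≤ H) ∧ ∀ m e, (Q : ℤ) ∣ F m e - a m e}.ncard := by
  classical
  set t := (2 * H + 1) / Q with ht
  let Φ : (α → β → Fin t) → (α → β → ℤ) := fun u m e =>
    -(H : ℤ) + (a m e + H) % Q + Q * ((u m e : ℕ) : ℤ)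
  have hQ' : (0 : ℤ) < Q := by exact_mod_cast hQ
  have hinj : Injective Φ := by
    intro u u' h
    funext m e
    have h1 := congrFun (congrFun h m) e
    simp only [Φ] at h1
    have h2 : (Q : ℤ) * ((u m e : ℕ) : ℤ) = Q * ((u' m e : ℕ) : ℤ) := by linarith
    have h3 := mul_left_cancel₀ hQ'.ne' h2
    apply Fin.ext
    exact_mod_cast h3
  have hsub : Set.range Φ ⊆
      {F : α → β → ℤ | (∀ m e, |F m e| ≤ H) ∧ ∀ m e, (Q : ℤ) ∣ F m e - a m e} := by
    rintro F ⟨u, rfl⟩
    constructor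
    · intro m e
      simp only [Φ]
      have h1 := Int.emod_nonneg (a m e + H) hQ'.ne'
      have h2 := Int.emod_lt_of_pos (a m e + H) hQ'
      have h3 : ((u m e : ℕ) : ℤ) + 1 ≤ t := by exact_mod_cast (u m e).2
      have h4 : (0 : ℤ) ≤ ((u m e : ℕ) : ℤ) := by positivity
      have h5 : (Q : ℤ) * t ≤ 2 * H + 1 := by
        have : Q * t ≤ 2 * H + 1 := Nat.mul_div_le _ _
        exact_mod_cast this
      have h6 : (Q : ℤ) * (((u m e : ℕ) : ℤ) + 1) ≤ Q * t := by
        exact mul_le_mul_of_nonneg_left h3 hQ'.le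
      have h7 : (0 : ℤ) ≤ Q * ((u m e : ℕ) : ℤ) := by positivity
      rw [abs_le]
      constructor <;> nlinarith
    · intro m e
      simp only [Φ]
      have h1 := Int.emod_add_mul_ediv (a m e + H) Q
      refine ⟨((u m e : ℕ) : ℤ) - (a m e + H) / Q, ?_⟩
      linear_combination h1
  have hfin : {F : α → β → ℤ | (∀ m e, |F m e| ≤ H) ∧ ∀ m e, (Q : ℤ) ∣ F m e - a m e}.Finite :=
    (box_finite' H).subset (fun F hF => hF.1)
  calc t ^ (Fintype.card α * Fintype.card β) = Nat.card (α → β → Fin t) := by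
        rw [Nat.card_eq_fintype_card]
        simp only [Fintype.card_fun, Fintype.card_fin]
        rw [← pow_mul, mul_comm]
    _ = (Set.range Φ).ncard := by
        rw [← Set.image_univ, Set.ncard_image_of_injective _ hinj, Set.ncard_univ]
    _ ≤ _ := Set.ncard_le_ncard hsub hfin

theorem taskCount : TaskCount := by
  classical
  intro n d p hp c
  set M : ℕ := Fintype.card (Fin n) * Fintype.card (Mono n d) with hM
  have hpR : (0 : ℝ) < p := by exact_mod_cast hp
  refine ⟨(1 / (2 * p)) ^ M, by positivity, p, ?_⟩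
  intro H hH
  have h1 := count_aux' p hp c H
  have hboxfin : (Box n d H).Finite := by
    apply Set.finite_of_ncard_pos
    rw [ncard_box]
    positivity
  have hT : {F | F ∈ Box n d H ∧ ∀ i (κ : Mono n d), (p : ℤ) ∣ coeff (expo κ) (F i) - c i κ}.Finite :=
    hboxfin.subset (fun F hF => hF.1)
  have h2 : {F : Fin n → Mono n d → ℤ | (∀ m e, |F m e| ≤ H) ∧
      ∀ m e, (p : ℤ) ∣ F m e - c m e}.ncard ≤
      ({F | F ∈ Box n d H ∧ ∀ i (κ : Mono n d), (p : ℤ) ∣ coeff (expo κ) (F i) - c i κ} :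
          Set (Fin n → MvPolynomial (Fin n) ℤ)).ncard := by
    apply Set.ncard_le_ncard_of_injOn (fun v => (sys v : Fin n → MvPolynomial (Fin n) ℤ)) _ _ hT
    · rintro v ⟨hv1, hv2⟩
      refine ⟨fun i => ⟨form_isHomogeneous _, fun μ => ?_⟩, fun i κ => ?_⟩
      · by_cases h : μ.degree = d
        · obtain ⟨κ, rfl⟩ := exists_expo μ h
          simp only [sys]
          rw [coeff_form]
          exact hv1 _ _
        · simp only [sys]
          rw [coeff_form_of_ne _ _ h, abs_zero]
          positivity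
      · simp only [sys]
        rw [coeff_form]
        exact hv2 i κ
    · intro v _ w _ hvw
      funext i κ
      have h := congrArg (fun q : MvPolynomial (Fin n) ℤ => coeff (expo κ) q) (congrFun hvw i)
      simp only [sys] at h
      rwa [coeff_form, coeff_form] at h
  have h3 : 1 / (2 * (p : ℝ)) * (2 * H + 1) ≤ (((2 * H + 1) / p : ℕ) : ℝ) := by
    have h4 : ((2 * H + 1 : ℕ) : ℝ) / p < (((2 * H + 1) / p : ℕ) : ℝ) + 1 := by
      have := Nat.lt_floor_add_one (((2 * H + 1 : ℕ) : ℝ) / p)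
      rwa [Nat.floor_div_eq_div] at this
    have h5 : (1 : ℝ) ≤ ((2 * H + 1 : ℕ) : ℝ) / p / 2 := by
      rw [le_div_iff₀ (by norm_num), le_div_iff₀ hpR]
      push_cast
      have : (p : ℝ) ≤ H := by exact_mod_cast hH
      linarith
    have h6 : 1 / (2 * (p : ℝ)) * (2 * H + 1) = ((2 * H + 1 : ℕ) : ℝ) / p / 2 := by
      push_cast
      field_simp
    rw [h6]
    linarith
  have hbox : ((Box n d H).ncard : ℝ) = (2 * H + 1) ^ M := by
    rw [ncard_box, Fintype.card_prod]
    push_cast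
    rfl
  rw [hbox]
  calc (1 / (2 * (p : ℝ))) ^ M * (2 * H + 1) ^ M
      = (1 / (2 * (p : ℝ)) * (2 * H + 1)) ^ M := (mul_pow _ _ _).symm
    _ ≤ ((((2 * H + 1) / p : ℕ)) : ℝ) ^ M := by
        apply pow_le_pow_left₀ (by positivity) h3
    _ = ((((2 * H + 1) / p) ^ M : ℕ) : ℝ) := by push_cast; rfl
    _ ≤ _ := by exact_mod_cast h1.trans h2

end H294DM
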