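import Pool.Agent.H294DM.Stmts

set_option autoImplicit false

/-! Positive proportion of a congruence class in a real cell. -/

namespace H294DM

open MvPolynomial Pool.Agent.H936R2 Pool.Agent.H927R2.RD Function

theorem count_cell {α β : Type} [Fintype α] [Fintype β] (Q : ℕ) (hQ : 0 < Q) (a lo : α → β → ℤ)
    (t : ℕ) : t ^ (Fintype.card α * Fintype.card β) ≤
      {F : α → β → ℤ | (∀ m e, lo m e ≤ F m e ∧ F m e + 1 ≤ lo m e + Q * t) ∧
        ∀ m e, (Q : ℤ) ∣ F m e - a m e}.ncard := by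
  classical
  let Φ : (α → β → Fin t) → (α → β → ℤ) := fun u m e =>
    lo m e + (a m e - lo m e) % Q + Q * ((u m e : ℕ) : ℤ)
  have hQ' : (0 : ℤ) < Q := by exact_mod_cast hQ
  have hinj : Injective Φ := by
    intro u u' h
    funext m e
    have h1 := congrFun (congrFun h m) e
    simp only [Φ] at h1
    have h2 : (Q : ℤ) * ((u m e : ℕ) : ℤ) = Q * ((u' m e : ℕ) : ℤ) := by linarith
    have h3 := mul_left_cancel₀ hQ'.ne' h2
    apply Fin.ext
    exact_mod_cast h3
  have hsub : Set.range Φ ⊆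
      {F : α → β → ℤ | (∀ m e, lo m e ≤ F m e ∧ F m e + 1 ≤ lo m e + Q * t) ∧
        ∀ m e, (Q : ℤ) ∣ F m e - a m e} := by
    rintro F ⟨u, rfl⟩
    constructor
    · intro m e
      simp only [Φ]
      have h1 := Int.emod_nonneg (a m e - lo m e) hQ'.ne'
      have h2 := Int.emod_lt_of_pos (a m e - lo m e) hQ'
      have h3 : ((u m e : ℕ) : ℤ) + 1 ≤ t := by exact_mod_cast (u m e).2
      have h4 : (0 : ℤ) ≤ ((u m e : ℕ) : ℤ) := by positivity
      have h6 : (Q : ℤ) * (((u m e : ℕ) : ℤ) + 1) ≤ Q * t := by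
        exact mul_le_mul_of_nonneg_left h3 hQ'.le
      have h7 : (0 : ℤ) ≤ Q * ((u m e : ℕ) : ℤ) := by positivity
      constructor <;> nlinarith
    · intro m e
      simp only [Φ]
      have h1 := Int.emod_add_mul_ediv (a m e - lo m e) Q
      refine ⟨((u m e : ℕ) : ℤ) - (a m e - lo m e) / Q, ?_⟩
      linear_combination h1
  have hfin : {F : α → β → ℤ | (∀ m e, lo m e ≤ F m e ∧ F m e + 1 ≤ lo m e + Q * t) ∧
        ∀ m e, (Q : ℤ) ∣ F m e - a m e}.Finite := by
    apply Set.Finite.subset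
      (Fintype.piFinset (fun m : α => Fintype.piFinset (fun e : β =>
        Finset.Icc (lo m e) (lo m e + Q * t)))).finite_toSet
    intro F hF
    simp only [Finset.mem_coe, Fintype.mem_piFinset, Finset.mem_Icc]
    intro m e
    exact ⟨(hF.1 m e).1, by linarith [(hF.1 m e).2]⟩
  calc t ^ (Fintype.card α * Fintype.card β) = Nat.card (α → β → Fin t) := by
        rw [Nat.card_eq_fintype_card]
        simp only [Fintype.card_fun, Fintype.card_fin]
        rw [← pow_mul, mul_comm]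
    _ = (Set.range Φ).ncard := by
        rw [← Set.image_univ, Set.ncard_image_of_injective _ hinj, Set.ncard_univ]
    _ ≤ _ := Set.ncard_le_ncard hsub hfin

theorem count2 (n d p : ℕ) (hp : 0 < p) (c : Fin n → Mono n d → ℤ) (B : Fin n → Mono n d → ℝ)
    (hB : ∀ i κ, |B i κ| ≤ 1) (ε : ℝ) (hε : 0 < ε) :
    ∃ δ : ℝ, 0 < δ ∧ ∃ H₀ : ℕ, ∀ H : ℕ, H₀ ≤ H →
      δ * ((Box n d H).ncard : ℝ) ≤
        (({F | F ∈ Box n d H ∧
          (∀ i (κ : Mono n d), |((coeff (expo κ) (F i) : ℤ) : ℝ) - H * B i κ| ≤ ε * H) ∧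
          ∀ i (κ : Mono n d), (p : ℤ) ∣ coeff (expo κ) (F i) - c i κ} :
          Set (Fin n → MvPolynomial (Fin n) ℤ)).ncard : ℝ) := by
  classical
  set e : ℝ := min ε 1 with he
  have he0 : 0 < e := lt_min hε one_pos
  have he1 : e ≤ 1 := min_le_right _ _
  have heε : e ≤ ε := min_le_left _ _
  set M : ℕ := Fintype.card (Fin n) * Fintype.card (Mono n d) with hM
  have hpR : (0 : ℝ) < p := by exact_mod_cast hp
  refine ⟨(e / (6 * p)) ^ M, by positivity, ⌈2 * p / e⌉₊ + 1, ?_⟩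
  intro H hH
  have hH1 : (1 : ℝ) ≤ H := by
    have : 1 ≤ H := by omega
    exact_mod_cast this
  have hH2 : 2 * p / e ≤ (H : ℝ) := by
    refine (Nat.le_ceil _).trans ?_
    have : ⌈2 * (p : ℝ) / e⌉₊ ≤ H := by omega
    exact_mod_cast this
  let lo : Fin n → Mono n d → ℤ := fun i κ =>
    if 0 ≤ B i κ then ⌈(H : ℝ) * B i κ - e * H⌉ else ⌈(H : ℝ) * B i κ⌉
  set t : ℕ := ⌊e * H / p⌋₊ with ht
  have htle : (p : ℝ) * t ≤ e * H := by
    have h := Nat.floor_le (a := e * H / p) (by positivity)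
    rw [le_div_iff₀ hpR] at h
    linarith
  have h1 := count_cell p hp c lo t
  have hboxfin : (Box n d H).Finite := by
    apply Set.finite_of_ncard_pos
    rw [ncard_box]
    positivity
  have hT : {F | F ∈ Box n d H ∧
      (∀ i (κ : Mono n d), |((coeff (expo κ) (F i) : ℤ) : ℝ) - H * B i κ| ≤ ε * H) ∧
      ∀ i (κ : Mono n d), (p : ℤ) ∣ coeff (expo κ) (F i) - c i κ}.Finite :=
    hboxfin.subset (fun F hF => hF.1)
  -- the cell lies in the box and near `H B`
  have hcell : ∀ (v : Fin n → Mono n d → ℤ),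
      (∀ m e', lo m e' ≤ v m e' ∧ v m e' + 1 ≤ lo m e' + p * t) → ∀ i κ,
      |v i κ| ≤ (H : ℤ) ∧ |((v i κ : ℤ) : ℝ) - H * B i κ| ≤ ε * H := by
    intro v hv i κ
    obtain ⟨g1, g2⟩ := hv i κ
    have g1' : ((lo i κ : ℤ) : ℝ) ≤ (v i κ : ℝ) := by exact_mod_cast g1
    have g2' : ((v i κ : ℤ) : ℝ) + 1 ≤ (lo i κ : ℝ) + p * t := by exact_mod_cast g2
    obtain ⟨b1, b2⟩ := abs_le.1 (hB i κ)
    have hHB1 : -(H : ℝ) ≤ H * B i κ := by nlinarith
    have hHB2 : (H : ℝ) * B i κ ≤ H := by nlinarith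
    have heH : e * (H : ℝ) ≤ H := by nlinarith
    have heH' : e * (H : ℝ) ≤ ε * H := by nlinarith
    have heH0 : 0 ≤ e * (H : ℝ) := by positivity
    have key : -(H : ℝ) ≤ v i κ ∧ (v i κ : ℝ) ≤ H ∧ -(e * (H : ℝ)) ≤ (v i κ : ℝ) - H * B i κ ∧
        (v i κ : ℝ) - H * B i κ ≤ e * H := by
      by_cases hb : 0 ≤ B i κ
      · have hlo : lo i κ = ⌈(H : ℝ) * B i κ - e * H⌉ := by simp only [lo, if_pos hb]
        have c1 := Int.le_ceil ((H : ℝ) * B i κ - e * H)
        have c2 := Int.ceil_lt_add_one ((H : ℝ) * B i κ - e * H)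
        rw [← hlo] at c1 c2
        have hHB0 : 0 ≤ (H : ℝ) * B i κ := mul_nonneg (by linarith) hb
        refine ⟨by linarith, by linarith, by linarith, by linarith⟩
      · have hlo : lo i κ = ⌈(H : ℝ) * B i κ⌉ := by simp only [lo, if_neg hb]
        have c1 := Int.le_ceil ((H : ℝ) * B i κ)
        have c2 := Int.ceil_lt_add_one ((H : ℝ) * B i κ)
        rw [← hlo] at c1 c2
        push Not at hb
        have hHB0 : (H : ℝ) * B i κ ≤ 0 := mul_nonpos_of_nonneg_of_nonpos (by linarith) hb.le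
        refine ⟨by linarith, by linarith, by linarith, by linarith⟩
    obtain ⟨k1, k2, k3, k4⟩ := key
    refine ⟨?_, ?_⟩
    · rw [abs_le]
      exact ⟨by exact_mod_cast k1, by exact_mod_cast k2⟩
    · rw [abs_le]
      exact ⟨by linarith, by linarith⟩
  have hfin1 : {F : Fin n → Mono n d → ℤ | (∀ m e', lo m e' ≤ F m e' ∧
      F m e' + 1 ≤ lo m e' + p * t) ∧ ∀ m e', (p : ℤ) ∣ F m e' - c m e'}.ncard ≤
      ({F | F ∈ Box n d H ∧
          (∀ i (κ : Mono n d), |((coeff (expo κ) (F i) : ℤ) : ℝ) - H * B i κ| ≤ ε * H) ∧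
          ∀ i (κ : Mono n d), (p : ℤ) ∣ coeff (expo κ) (F i) - c i κ} :
          Set (Fin n → MvPolynomial (Fin n) ℤ)).ncard := by
    apply Set.ncard_le_ncard_of_injOn (fun v => (sys v : Fin n → MvPolynomial (Fin n) ℤ)) _ _ hT
    · rintro v ⟨hv1, hv2⟩
      refine ⟨fun i => ⟨form_isHomogeneous _, fun μ => ?_⟩, fun i κ => ?_, fun i κ => ?_⟩
      · by_cases h : μ.degree = d
        · obtain ⟨κ, rfl⟩ := exists_expo μ h
          simp only [sys]
          rw [coeff_form]
          exact (hcell v hv1 _ _).1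
        · simp only [sys]
          rw [coeff_form_of_ne _ _ h, abs_zero]
          positivity
      · simp only [sys]
        rw [coeff_form]
        exact (hcell v hv1 _ _).2
      · simp only [sys]
        rw [coeff_form]
        exact hv2 i κ
    · intro v _ w _ hvw
      funext i κ
      have h := congrArg (fun q : MvPolynomial (Fin n) ℤ => coeff (expo κ) q) (congrFun hvw i)
      simp only [sys] at h
      rwa [coeff_form, coeff_form] at h
  have h3 : e / (6 * p) * (2 * H + 1) ≤ (t : ℝ) := by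
    have h4 : e * H / p < (t : ℝ) + 1 := Nat.lt_floor_add_one _
    have h5 : (1 : ℝ) ≤ e * H / p / 2 := by
      rw [le_div_iff₀ (by norm_num), le_div_iff₀ hpR]
      rw [div_le_iff₀ he0] at hH2
      linarith
    have h6 : e / (6 * p) * (2 * H + 1) ≤ e * H / p / 2 := by
      have h7 : e * H / p / 2 = e / (6 * p) * (3 * H) := by field_simp; ring
      rw [h7]
      apply mul_le_mul_of_nonneg_left _ (by positivity)
      linarith
    linarith
  have hbox : ((Box n d H).ncard : ℝ) = (2 * H + 1) ^ M := by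
    rw [ncard_box, Fintype.card_prod]
    push_cast
    rfl
  rw [hbox]
  calc (e / (6 * (p : ℝ))) ^ M * (2 * H + 1) ^ M
      = (e / (6 * (p : ℝ)) * (2 * H + 1)) ^ M := (mul_pow _ _ _).symm
    _ ≤ (t : ℝ) ^ M := by
        apply pow_le_pow_left₀ (by positivity) h3
    _ = ((t ^ M : ℕ) : ℝ) := by push_cast; rfl
    _ ≤ _ := by exact_mod_cast h1.trans hfin1

end H294DM
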