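import Pool.Agent.H294DM.Stmts

/-! Task Crit of project H294-DM. -/

set_option autoImplicit false

namespace H294DM

open MvPolynomial Pool.Agent.H936R2 Pool.Agent.H927R2.RD

theorem taskCrit : TaskCrit := by
  intro p hp N d F hF H
  -- the residue field and its algebraic closure
  set k := AlgebraicClosure (ResF (PadicAlgCl p)) with hk
  let φ : ResF (PadicAlgCl p) →+* k := algebraMap _ _
  have hφ : Function.Injective φ := (algebraMap (ResF (PadicAlgCl p)) k).injective
  have hpres : ((p : ℕ) : ResF (PadicAlgCl p)) = 0 := by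
    have h1 : res (PadicAlgCl p) ((p : ℕ) : unitBall (PadicAlgCl p)) = 0 := by
      rw [res_eq_zero_iff]
      have h2 : (((p : ℕ) : unitBall (PadicAlgCl p)) : PadicAlgCl p) =
          (((p : ℚ_[p]) : PadicAlgCl p)) := by
        have h3 : ((algebraMap ℚ_[p] (PadicAlgCl p)) (p : ℚ_[p])) = ((p : ℕ) : PadicAlgCl p) :=
          map_natCast _ _
        rw [show (((p : ℚ_[p]) : PadicAlgCl p)) = (algebraMap ℚ_[p] (PadicAlgCl p)) (p : ℚ_[p])
          from rfl, h3]
        rfl
      rw [h2, PadicAlgCl.norm_extends]
      exact Padic.norm_p_lt_one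
    rw [map_natCast] at h1
    exact h1
  have hchar : CharP (ResF (PadicAlgCl p)) p := by
    obtain ⟨q, hq⟩ := CharP.exists (ResF (PadicAlgCl p))
    have hqp : q ∣ p := (CharP.cast_eq_zero_iff (ResF (PadicAlgCl p)) q p).1 hpres
    have hq1 : q ≠ 1 := CharP.char_ne_one (ResF (PadicAlgCl p)) q
    have hqe : q = p := (Nat.Prime.eq_one_or_self_of_dvd hp.out q hqp).resolve_left hq1
    exact hqe ▸ hq
  have hchark : CharP k p := charP_of_injective_algebraMap hφ p
  obtain ⟨H1, H2⟩ := H k
  -- transfer
  set FO : Fin (N + 1) → MvPolynomial (Fin (N + 1)) (unitBall (PadicAlgCl p)) :=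
    overR (unitBall (PadicAlgCl p)) F with hFO
  have hres : (fun i => map (res (PadicAlgCl p)) (FO i)) = overR (ResF (PadicAlgCl p)) F :=
    overR_map _ F
  have hk2 : (fun i => map φ (overR (ResF (PadicAlgCl p)) F i)) = overR k F := overR_map _ F
  obtain ⟨τ⟩ := exists_embedding p
  have h1 : ∀ x : Fin (N + 1) → ResF (PadicAlgCl p),
      (∀ i, eval x (map (res (PadicAlgCl p)) (FO i)) = 0) → x = 0 := by
    intro x hx
    have h3 : (fun i => φ (x i)) = 0 := by
      apply H1
      intro i
      have e1 := pt_map φ (overR (ResF (PadicAlgCl p)) F) x 1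
      simp only [Function.iterate_one] at e1
      rw [hk2] at e1
      have e2 := congrFun e1 i
      simp only [pt] at e2
      rw [e2]
      have e3 : eval x (overR (ResF (PadicAlgCl p)) F i) = 0 := by
        have := hx i
        rw [show map (res (PadicAlgCl p)) (FO i) = overR (ResF (PadicAlgCl p)) F i from
          congrFun hres i] at this
        exact this
      rw [e3, map_zero]
    funext i
    have h4 := congrFun h3 i
    simp only [Pi.zero_apply] at h4
    exact (map_eq_zero_iff φ hφ).1 h4
  have h2 : ∀ x : Fin (N + 1) → ResF (PadicAlgCl p), x ≠ 0 → ∀ m : ℕ, 0 < m →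
      (pt fun i => map (res (PadicAlgCl p)) (FO i))^[m] x = x →
      (jac (fun i => map (res (PadicAlgCl p)) (FO i)) x).det ≠ 0 := by
    intro x hx m hm hper
    rw [hres] at hper ⊢
    have hx' : (fun i => φ (x i)) ≠ 0 := by
      intro h0
      apply hx
      funext i
      have h4 := congrFun h0 i
      simp only [Pi.zero_apply] at h4
      exact (map_eq_zero_iff φ hφ).1 h4
    have e1 := pt_map φ (overR (ResF (PadicAlgCl p)) F) x m
    rw [hk2, hper] at e1
    have e2 := H2 (fun i => φ (x i)) hx' m hm e1
    have e3 := jac_map φ (overR (ResF (PadicAlgCl p)) F) x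
    rw [hk2] at e3
    rw [e3, ← RingHom.map_det] at e2
    intro h0
    apply e2
    rw [h0, map_zero]
  obtain ⟨r1, r2⟩ := criterion p N d (overR ℂ F) (fun i => (hF i).map _) τ FO (by
    intro i
    have e1 : (fun i => map τ (overR ℂ F i)) = overR (PadicAlgCl p) F := overR_map τ F
    have e2 : (fun i => map (unitBall (PadicAlgCl p)).subtype (FO i)) =
        overR (PadicAlgCl p) F := overR_map _ F
    rw [show map τ (overR ℂ F i) = overR (PadicAlgCl p) F i from congrFun e1 i]
    exact (congrFun e2 i).symm) h1 h2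
  exact ⟨r1, fun α hα S hS => r2 S hS α hα⟩

end H294DM
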