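import Pool.Agent.H294DM.Stmts

set_option autoImplicit false

/-! Task Hom. -/

namespace H294DM

namespace Hom

theorem lin_coeff_hom {R : Type} [CommRing R] (N : ℕ) (u : R) (s : ℕ) :
    ((lin N u).coeff s).IsHomogeneous 1 := by
  unfold lin
  rw [Polynomial.finsetSum_coeff]
  apply MvPolynomial.IsHomogeneous.sum
  intro j _
  rw [Polynomial.coeff_C_mul_X_pow]
  split_ifs
  · exact (MvPolynomial.isHomogeneous_X R j).C_mul _
  · exact MvPolynomial.isHomogeneous_zero _ _ _

theorem prod_coeff_hom {R : Type} [CommRing R] (N : ℕ) (ζ : R) (m : ℕ) : ∀ s : ℕ,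
    ((∏ i ∈ Finset.range m, lin N (ζ ^ i)).coeff s).IsHomogeneous m := by
  induction m with
  | zero =>
    intro s
    rw [Finset.prod_range_zero, Polynomial.coeff_one]
    split_ifs
    · exact MvPolynomial.isHomogeneous_one _ _
    · exact MvPolynomial.isHomogeneous_zero _ _ _
  | succ m ih =>
    intro s
    rw [Finset.prod_range_succ, Polynomial.coeff_mul]
    apply MvPolynomial.IsHomogeneous.sum
    intro x _
    exact (ih x.1).mul (lin_coeff_hom N (ζ ^ m) x.2)

theorem lin_map {R R' : Type} [CommRing R] [CommRing R'] (φ : R →+* R') (N : ℕ) (u : R) :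
    (lin N u).map (MvPolynomial.map φ) = lin N (φ u) := by
  unfold lin
  rw [Polynomial.map_sum]
  refine Finset.sum_congr rfl fun j _ => ?_
  rw [Polynomial.map_mul, Polynomial.map_C, Polynomial.map_pow, Polynomial.map_X, map_mul,
    MvPolynomial.map_C, MvPolynomial.map_X, map_pow]

theorem WW_map {R R' : Type} [CommRing R] [CommRing R'] (φ : R →+* R') (N d : ℕ) (ζ : R) :
    (WW N d ζ).map (MvPolynomial.map φ) = WW N d (φ ζ) := by
  unfold WW
  rw [Polynomial.map_prod]
  refine Finset.prod_congr rfl fun i _ => ?_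
  rw [lin_map, map_pow]

theorem TT_map {R R' : Type} [CommRing R] [CommRing R'] (φ : R →+* R') (N d : ℕ) (ζ : R)
    (l : Fin (N + 1)) : MvPolynomial.map φ (TT N d ζ l) = TT N d (φ ζ) l := by
  unfold TT
  rw [← WW_map φ, Polynomial.coeff_map]

end Hom

theorem taskHom : TaskHom := by
  refine ⟨?_, ?_⟩
  · intro R _ N d ζ j
    unfold GG
    apply MvPolynomial.IsHomogeneous.sum
    intro l _
    exact (Hom.prod_coeff_hom N ζ d (d * (l : ℕ))).C_mul _
  · intro R R' _ _ φ N d ζ j
    unfold GG
    rw [map_sum]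
    refine Finset.sum_congr rfl fun l _ => ?_
    rw [map_mul, MvPolynomial.map_C, Hom.TT_map]
    congr 2
    simp [mob]

end H294DM
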