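import Pool.Agent.H294DM.Stmts

set_option autoImplicit false

/-! Task Jac of the project H294-DM: the Jacobian matrix at separated forms (helper841). -/

namespace H294DM

open MvPolynomial Pool.Agent.H936R2 Pool.Agent.H927R2.RD

namespace JacT

variable {k : Type} [Field k]

/-- The polynomial `∑ y_j X^j`. -/
noncomputable def jacP {N : ℕ} (y : Fin (N + 1) → k) : Polynomial k :=
  ∑ j : Fin (N + 1), Polynomial.C (y j) * Polynomial.X ^ (j : ℕ)

lemma jacP_eval {N : ℕ} (y : Fin (N + 1) → k) (a : k) : (jacP y).eval a = bf y a 1 := by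
  simp [jacP, bf, Polynomial.eval_finsetSum]

lemma jacP_coeff {N : ℕ} (y : Fin (N + 1) → k) (j : Fin (N + 1)) :
    (jacP y).coeff (j : ℕ) = y j := by
  simp only [jacP, Polynomial.finsetSum_coeff, Polynomial.coeff_C_mul, Polynomial.coeff_X_pow]
  rw [Finset.sum_eq_single j]
  · simp
  · intro b _ hb
    have : (j : ℕ) ≠ (b : ℕ) := fun h => hb (Fin.ext h.symm)
    simp [this]
  · simp

lemma jacP_natDegree_le {N : ℕ} (y : Fin (N + 1) → k) : (jacP y).natDegree ≤ N := by
  unfold jacP
  apply Polynomial.natDegree_sum_le_of_forall_le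
  intro j _
  exact (Polynomial.natDegree_C_mul_X_pow_le _ _).trans (Nat.lt_succ_iff.mp j.2)

lemma lin_natDegree_le (N : ℕ) (u : k) : (lin N u).natDegree ≤ N := by
  unfold lin
  apply Polynomial.natDegree_sum_le_of_forall_le
  intro j _
  exact (Polynomial.natDegree_C_mul_X_pow_le _ _).trans (Nat.lt_succ_iff.mp j.2)

lemma WW_natDegree_le_jac (N d : ℕ) (ζ : k) : (WW N d ζ).natDegree ≤ d * N := by
  unfold WW
  refine (Polynomial.natDegree_prod_le _ _).trans ?_
  refine (Finset.sum_le_sum (fun i _ => lin_natDegree_le N (ζ ^ i))).trans ?_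
  simp

lemma lin_comp_jac (N : ℕ) (u ζ : k) :
    (lin N u).comp (Polynomial.C (C ζ) * Polynomial.X) = lin N (u * ζ) := by
  unfold lin
  rw [Polynomial.sum_comp]
  refine Finset.sum_congr rfl fun j _ => ?_
  rw [Polynomial.mul_comp, Polynomial.C_comp, Polynomial.X_pow_comp, mul_pow, mul_pow]
  simp only [C_mul, Polynomial.C_mul, C_pow, Polynomial.C_pow]
  ring

lemma WW_comp_jac (N d : ℕ) (ζ : k) (hd : 0 < d) (hζ : ζ ^ d = 1) :
    (WW N d ζ).comp (Polynomial.C (C ζ) * Polynomial.X) = WW N d ζ := by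
  unfold WW
  rw [Polynomial.prod_comp]
  obtain ⟨n, rfl⟩ : ∃ n, d = n + 1 := ⟨d - 1, by omega⟩
  simp only [lin_comp_jac, ← pow_succ]
  rw [Finset.prod_range_succ, Finset.prod_range_succ', hζ, pow_zero]

lemma WW_coeff_eq_zero_jac (N d : ℕ) (ζ : k) (hd : 0 < d) (hζ : IsPrimitiveRoot ζ d) (s : ℕ)
    (hs : ¬ d ∣ s) : (WW N d ζ).coeff s = 0 := by
  have h := congrArg (fun W => W.coeff s) (WW_comp_jac N d ζ hd hζ.pow_eq_one)
  simp only [Polynomial.comp_C_mul_X_coeff] at h
  have h2 : (WW N d ζ).coeff s * (C (ζ ^ s - 1) : MvPolynomial (Fin (N + 1)) k) = 0 := by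
    rw [C_sub, C_pow, C_1, mul_sub, mul_one, h, sub_self]
  rcases mul_eq_zero.mp h2 with h3 | h3
  · exact h3
  · exfalso
    apply hs
    apply hζ.dvd_of_pow_eq_one
    have := (C_injective (Fin (N + 1)) k) (h3.trans C_0.symm)
    exact sub_eq_zero.mp this

/-- The derivative at `y` in the direction `v`. -/
noncomputable def dv {N : ℕ} (y v : Fin (N + 1) → k) (g : MvPolynomial (Fin (N + 1)) k) : k :=
  ∑ j, v j * eval y (pderiv j g)

lemma dv_zero {N : ℕ} (y v : Fin (N + 1) → k) : dv y v 0 = 0 := by simp [dv]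

lemma dv_add {N : ℕ} (y v : Fin (N + 1) → k) (a b : MvPolynomial (Fin (N + 1)) k) :
    dv y v (a + b) = dv y v a + dv y v b := by
  simp only [dv, map_add, mul_add, Finset.sum_add_distrib]

lemma dv_mul {N : ℕ} (y v : Fin (N + 1) → k) (a b : MvPolynomial (Fin (N + 1)) k) :
    dv y v (a * b) = dv y v a * eval y b + eval y a * dv y v b := by
  simp only [dv, pderiv_mul, map_add, map_mul, Finset.sum_mul, Finset.mul_sum,
    ← Finset.sum_add_distrib]
  refine Finset.sum_congr rfl fun j _ => ?_
  ring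

lemma dv_C {N : ℕ} (y v : Fin (N + 1) → k) (a : k) : dv y v (C a) = 0 := by simp [dv]

lemma dv_X {N : ℕ} (y v : Fin (N + 1) → k) (j : Fin (N + 1)) : dv y v (X j) = v j := by
  simp only [dv, pderiv_X]
  rw [Finset.sum_eq_single j]
  · simp
  · intro b _ hb
    simp [hb.symm]
  · simp

lemma dv_sum {N : ℕ} (y v : Fin (N + 1) → k) {ι : Type} (s : Finset ι)
    (f : ι → MvPolynomial (Fin (N + 1)) k) :
    dv y v (∑ i ∈ s, f i) = ∑ i ∈ s, dv y v (f i) := by
  classical
  induction s using Finset.induction_on with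
  | empty => simp [dv_zero]
  | insert a s ha ih => rw [Finset.sum_insert ha, Finset.sum_insert ha, dv_add, ih]

lemma dv_prod {N : ℕ} (y v : Fin (N + 1) → k) {ι : Type} [DecidableEq ι] (s : Finset ι)
    (f : ι → MvPolynomial (Fin (N + 1)) k) :
    dv y v (∏ i ∈ s, f i) = ∑ i ∈ s, dv y v (f i) * ∏ j ∈ s.erase i, eval y (f j) := by
  induction s using Finset.induction_on with
  | empty =>
    have : (1 : MvPolynomial (Fin (N + 1)) k) = C 1 := C_1.symm
    simp only [Finset.prod_empty, Finset.sum_empty]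
    rw [this, dv_C]
  | insert a s ha ih =>
    rw [Finset.prod_insert ha, Finset.sum_insert ha, dv_mul, ih, Finset.erase_insert ha,
      map_prod, Finset.mul_sum]
    congr 1
    refine Finset.sum_congr rfl fun i hi => ?_
    have hia : i ≠ a := fun h => ha (h ▸ hi)
    rw [Finset.erase_insert_of_ne hia.symm, Finset.prod_insert (by simp [ha])]
    ring

/-- The linear form `∑ b^j X_j`. -/
lemma eval_lin_jac {N : ℕ} (u a : k) :
    (lin N u).eval (C a) = ∑ j : Fin (N + 1), C ((u * a) ^ (j : ℕ)) * X j := by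
  unfold lin
  rw [Polynomial.eval_finsetSum]
  refine Finset.sum_congr rfl fun j _ => ?_
  simp only [Polynomial.eval_mul, Polynomial.eval_C, Polynomial.eval_pow, Polynomial.eval_X,
    mul_pow, C_mul, C_pow]
  ring

lemma dv_lin {N : ℕ} (y v : Fin (N + 1) → k) (u a : k) :
    dv y v ((lin N u).eval (C a)) = (jacP v).eval (u * a) := by
  rw [eval_lin_jac, dv_sum, jacP, Polynomial.eval_finsetSum]
  refine Finset.sum_congr rfl fun j _ => ?_
  rw [dv_mul, dv_C, dv_X, zero_mul, zero_add, eval_C, Polynomial.eval_mul, Polynomial.eval_C,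
    Polynomial.eval_pow, Polynomial.eval_X, mul_comm]

lemma ev_lin {N : ℕ} (y : Fin (N + 1) → k) (u a : k) :
    eval y ((lin N u).eval (C a)) = (jacP y).eval (u * a) := by
  rw [eval_lin_jac, map_sum, jacP, Polynomial.eval_finsetSum]
  refine Finset.sum_congr rfl fun j _ => ?_
  rw [map_mul, eval_C, eval_X, Polynomial.eval_mul, Polynomial.eval_C,
    Polynomial.eval_pow, Polynomial.eval_X, mul_comm]

lemma dv_WW_zero {N d : ℕ} (ζ : k) (hd : 0 < d) (hζ : IsPrimitiveRoot ζ d)
    (y v : Fin (N + 1) → k) (hv : ∀ l, dv y v (TT N d ζ l) = 0) (a : k) :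
    dv y v ((WW N d ζ).eval (C a)) = 0 := by
  rw [Polynomial.eval_eq_sum_range, dv_sum]
  refine Finset.sum_eq_zero fun s _ => ?_
  rw [dv_mul, ← C_pow, dv_C, mul_zero, add_zero]
  by_cases hs : d ∣ s
  · obtain ⟨l, rfl⟩ := hs
    by_cases hl : l < N + 1
    · have := hv ⟨l, hl⟩
      simp only [TT] at this
      rw [this, zero_mul]
    · rw [Polynomial.coeff_eq_zero_of_natDegree_lt, dv_zero, zero_mul]
      refine lt_of_le_of_lt (WW_natDegree_le_jac N d ζ) ?_
      exact Nat.mul_lt_mul_of_pos_left (by omega) hd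
  · rw [WW_coeff_eq_zero_jac N d ζ hd hζ s hs, dv_zero, zero_mul]

end JacT

open JacT in
theorem taskJac : TaskJac := by
  intro k _ _ N d ζ hd hdk hζ y hy hdet
  classical
  obtain ⟨v, hv0, hv⟩ := Matrix.exists_mulVec_eq_zero_iff.mpr hdet
  apply hv0
  have hTT : ∀ l, dv y v (TT N d ζ l) = 0 := by
    intro l
    have := congrFun hv l
    simp only [Matrix.mulVec, dotProduct, jac, Pi.zero_apply] at this
    rw [dv, ← this]
    exact Finset.sum_congr rfl fun j _ => mul_comm _ _
  -- the polynomials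
  let Q : ℕ → Polynomial k := fun i => (jacP y).comp (Polynomial.C (ζ ^ i) * Polynomial.X)
  let V : ℕ → Polynomial k := fun i => (jacP v).comp (Polynomial.C (ζ ^ i) * Polynomial.X)
  have hQe : ∀ i a, (Q i).eval a = (jacP y).eval (ζ ^ i * a) := by
    intro i a; simp [Q, Polynomial.eval_comp]
  have hVe : ∀ i a, (V i).eval a = (jacP v).eval (ζ ^ i * a) := by
    intro i a; simp [V, Polynomial.eval_comp]
  have hsum : ∑ i ∈ Finset.range d, V i * ∏ j ∈ (Finset.range d).erase i, Q j = 0 := by
    apply Polynomial.funext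
    intro a
    have h := dv_WW_zero ζ hd hζ y v hTT a
    rw [WW, Polynomial.eval_prod, dv_prod] at h
    simp only [dv_lin, ev_lin] at h
    rw [Polynomial.eval_finsetSum, Polynomial.eval_zero, ← h]
    refine Finset.sum_congr rfl fun i _ => ?_
    rw [Polynomial.eval_mul, Polynomial.eval_prod, hVe]
    congr 1
    exact Finset.prod_congr rfl fun j _ => hQe j a
  have hQ0 : Q 0 = jacP y := by simp [Q]
  have hV0 : V 0 = jacP v := by simp [V]
  have h0mem : 0 ∈ Finset.range d := Finset.mem_range.mpr hd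
  -- divisibility
  have hdvd : jacP y ∣ jacP v * ∏ j ∈ (Finset.range d).erase 0, Q j := by
    rw [← Finset.add_sum_erase _ _ h0mem, hV0] at hsum
    have h2 : jacP v * ∏ j ∈ (Finset.range d).erase 0, Q j =
        - ∑ i ∈ (Finset.range d).erase 0, V i * ∏ j ∈ (Finset.range d).erase i, Q j :=
      eq_neg_of_add_eq_zero_left hsum
    rw [h2]
    apply (dvd_neg).mpr
    apply Finset.dvd_sum
    intro i hi
    apply Dvd.dvd.mul_left
    rw [← hQ0]
    apply Finset.dvd_prod_of_mem
    rw [Finset.mem_erase]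
    exact ⟨(Finset.ne_of_mem_erase hi).symm, h0mem⟩
  have hcop : IsCoprime (jacP y) (∏ j ∈ (Finset.range d).erase 0, Q j) := by
    apply IsCoprime.prod_right
    intro i hi
    rw [Finset.mem_erase, Finset.mem_range] at hi
    rw [Polynomial.isCoprime_iff_aeval_ne_zero_of_isAlgClosed k k]
    intro a
    by_cases ha : (jacP y).eval a = 0
    · right
      rw [Polynomial.coe_aeval_eq_eval]
      rw [hQe, jacP_eval]
      apply hy.2.2 i (Nat.pos_of_ne_zero hi.1) hi.2
      rw [← jacP_eval, ha]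
    · left
      rw [Polynomial.coe_aeval_eq_eval]
      exact ha
  have hdvd2 : jacP y ∣ jacP v := hcop.dvd_of_dvd_mul_right hdvd
  obtain ⟨q, hq⟩ := hdvd2
  have hyN : (jacP y).coeff N ≠ 0 := by
    have := jacP_coeff y (Fin.last N)
    rw [Fin.val_last] at this
    rw [this]; exact hy.2.1
  have hy0 : jacP y ≠ 0 := fun h => hyN (by rw [h, Polynomial.coeff_zero])
  have hdegy : (jacP y).natDegree = N :=
    le_antisymm (jacP_natDegree_le y) (Polynomial.le_natDegree_of_ne_zero hyN)
  have hv00 : jacP v = 0 := by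
    by_cases hq0 : q = 0
    · rw [hq, hq0, mul_zero]
    have hdegq : q.natDegree = 0 := by
      have h1 := jacP_natDegree_le v
      rw [hq, Polynomial.natDegree_mul hy0 hq0, hdegy] at h1
      omega
    obtain ⟨c, hc⟩ := Polynomial.natDegree_eq_zero.mp hdegq
    have hVQ : ∀ i, V i = Polynomial.C c * Q i := by
      intro i
      simp only [V, Q, hq, ← hc, Polynomial.mul_comp, Polynomial.C_comp]
      ring
    have hs2 : (d : Polynomial k) * (Polynomial.C c * ∏ i ∈ Finset.range d, Q i) = 0 := by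
      rw [← hsum]
      have : ∀ i ∈ Finset.range d, V i * ∏ j ∈ (Finset.range d).erase i, Q j =
          Polynomial.C c * ∏ i ∈ Finset.range d, Q i := by
        intro i hi
        rw [hVQ, mul_assoc, Finset.mul_prod_erase _ _ hi]
      rw [Finset.sum_congr rfl this]
      simp
    have hQne : ∀ i, Q i ≠ 0 := by
      intro i hi
      have h1 := hQe i 0
      rw [hi, Polynomial.eval_zero, mul_zero, ← Polynomial.coeff_zero_eq_eval_zero] at h1
      have h2 := jacP_coeff y 0
      rw [Fin.val_zero] at h2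
      exact hy.1 (by rw [← h2, ← h1])
    have hprod : ∏ i ∈ Finset.range d, Q i ≠ 0 := Finset.prod_ne_zero_iff.mpr fun i _ => hQne i
    have hdP : (d : Polynomial k) ≠ 0 := by
      rw [← Polynomial.C_eq_natCast]
      exact fun h => hdk (Polynomial.C_eq_zero.mp h)
    have hc0 : Polynomial.C c = (0 : Polynomial k) := by
      rcases mul_eq_zero.mp hs2 with h | h
      · exact absurd h hdP
      · rcases mul_eq_zero.mp h with h | h
        · exact h
        · exact absurd h hprod
    exfalso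
    exact hq0 (by rw [← hc, hc0])
  funext j
  rw [← jacP_coeff v j, hv00, Polynomial.coeff_zero, Pi.zero_apply]

end H294DM

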