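import Pool.Agent.H294DM.Stmts

set_option autoImplicit false

namespace H294DM

/-- the binomial expansion of `v ^ l * (v - u) ^ (N - l)` -/
lemma mob_binom {k : Type} [CommRing k] (N l : ℕ) (hl : l ≤ N) (u v : k) :
    ∑ j : Fin (N + 1), (-1) ^ (j : ℕ) * (((N - l).choose (j : ℕ) : ℕ) : k) * u ^ (j : ℕ) *
      v ^ (N - (j : ℕ)) = v ^ l * (v - u) ^ (N - l) := by
  rw [Fin.sum_univ_eq_sum_range
    (fun j => (-1) ^ j * (((N - l).choose j : ℕ) : k) * u ^ j * v ^ (N - j)) (N + 1)]
  have h1 : (v - u) = (-u) + v := by ring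
  rw [h1, add_pow, Finset.mul_sum]
  symm
  have hsub : Finset.range (N - l + 1) ⊆ Finset.range (N + 1) := by
    intro x hx
    rw [Finset.mem_range] at hx ⊢
    omega
  rw [← Finset.sum_subset hsub]
  · apply Finset.sum_congr rfl
    intro m hm
    rw [Finset.mem_range] at hm
    have h2 : v ^ (N - m) = v ^ l * v ^ (N - l - m) := by
      rw [← pow_add]; congr 1; omega
    rw [h2, neg_pow u m]
    ring
  · intro m _ hm
    rw [Finset.mem_range] at hm
    rw [Nat.choose_eq_zero_of_lt (by omega)]
    simp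

theorem taskMob : TaskMob := by
  refine ⟨?_, ?_⟩
  · intro k _ N c y u v
    simp only [bf, Matrix.mulVec, dotProduct, mob]
    have h1 : ∀ j : Fin (N + 1), (∑ l : Fin (N + 1), c ^ (l : ℕ) * (-1) ^ (j : ℕ) *
        (((N - (l : ℕ)).choose (j : ℕ) : ℕ) : k) * y l) * u ^ (j : ℕ) * v ^ (N - (j : ℕ)) =
        ∑ l : Fin (N + 1), y l * c ^ (l : ℕ) * ((-1) ^ (j : ℕ) *
        (((N - (l : ℕ)).choose (j : ℕ) : ℕ) : k) * u ^ (j : ℕ) * v ^ (N - (j : ℕ))) := by
      intro j
      rw [Finset.sum_mul, Finset.sum_mul]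
      apply Finset.sum_congr rfl
      intro l _
      ring
    rw [Finset.sum_congr rfl (fun j _ => h1 j), Finset.sum_comm]
    apply Finset.sum_congr rfl
    intro l _
    rw [← Finset.mul_sum, mob_binom N l (by omega) u v, mul_pow]
    ring
  · intro k _ N c hc hdet
    obtain ⟨y, hy0, hy⟩ := Matrix.exists_mulVec_eq_zero_iff.mpr hdet
    apply hy0
    have key : ∀ n : ℕ, ∀ l : Fin (N + 1), (l : ℕ) = n → y l = 0 := by
      intro n
      induction n using Nat.strong_induction_on with
      | _ n ih =>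
        intro l hl
        have hlN : (l : ℕ) ≤ N := by omega
        have h1 := congrFun hy (⟨N - (l : ℕ), by omega⟩ : Fin (N + 1))
        simp only [Matrix.mulVec, dotProduct, mob, Pi.zero_apply] at h1
        rw [Finset.sum_eq_single l] at h1
        · rw [Nat.choose_self, Nat.cast_one, mul_one] at h1
          rcases mul_eq_zero.mp h1 with h2 | h2
          · exfalso
            have h3 : (-1 : k) ^ (N - (l : ℕ)) ≠ 0 := pow_ne_zero _ (neg_ne_zero.mpr one_ne_zero)
            exact (mul_ne_zero (pow_ne_zero _ hc) h3) h2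
          · exact h2
        · intro l' _ hne
          rcases lt_or_gt_of_ne hne with h | h
          · rw [ih (l' : ℕ) (by have : (l' : ℕ) < (l : ℕ) := h; omega) l' rfl, mul_zero]
          · have h' : (l : ℕ) < (l' : ℕ) := h
            rw [Nat.choose_eq_zero_of_lt (by omega)]
            simp
        · intro h; exact absurd (Finset.mem_univ l) h
    funext l
    exact key l l rfl

end H294DM
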