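import Pool.Agent.H294DM.Per
import Pool.Agent.H294DM.Hom
import Pool.Agent.H294DM.Mob
import Pool.Agent.H294DM.Count

set_option autoImplicit false

/-! Assembly: full dynamical Mordell-Lang for a positive proportion of the endomorphisms of `P^N`
of degree `d`, in every residue class. -/

namespace H294DM

open MvPolynomial Pool.Agent.H936R2 Pool.Agent.H927R2.RD

/-- The system has no common zero in `ℂ^(N+1)` except `0`, i.e. it defines an endomorphism of
`P^N`, and this endomorphism has the dynamical Mordell-Lang property. -/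
def Good {N : ℕ} (F : Fin (N + 1) → MvPolynomial (Fin (N + 1)) ℤ) : Prop :=
  (∀ x : Fin (N + 1) → ℂ, (∀ i, eval x (overR ℂ F i) = 0) → x = 0) ∧
    ∀ α : Fin (N + 1) → ℂ, α ≠ 0 → DMLAt F α

lemma jac_GG {k : Type} [Field k] (N d : ℕ) (ζ : k) (y : Fin (N + 1) → k) :
    jac (GG N d ζ) y = mob N (1 - ζ) * jac (TT N d ζ) y := by
  ext i j
  simp only [jac, GG, Matrix.mul_apply, map_sum, pderiv_C_mul, map_mul, eval_C]

lemma exists_root (d : ℕ) (hd : 2 ≤ d) (M : ℕ) : ∃ p : ℕ, ∃ _ : Fact p.Prime, M < p ∧ d < p ∧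
    ∃ ζ : ZMod p, IsPrimitiveRoot ζ d := by
  obtain ⟨p, hp, hlt, hmod⟩ := Nat.exists_prime_gt_modEq_one (k := d) (M + d) (by omega)
  have : Fact p.Prime := ⟨hp⟩
  refine ⟨p, ⟨hp⟩, by omega, by omega, ?_⟩
  have hdvd : d ∣ p - 1 := (Nat.modEq_iff_dvd' hp.one_le).1 hmod.symm
  obtain ⟨g, hg⟩ := IsCyclic.exists_generator (α := (ZMod p)ˣ)
  have hord : orderOf g = p - 1 := by
    rw [orderOf_eq_card_of_forall_mem_zpowers hg, Nat.card_eq_fintype_card, ZMod.card_units]
  have hgp : IsPrimitiveRoot g (p - 1) := by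
    rw [← hord]
    exact IsPrimitiveRoot.orderOf g
  obtain ⟨e, he⟩ := hdvd
  have hp1 : 0 < p - 1 := by have := hp.two_le; omega
  have h1 : IsPrimitiveRoot (g ^ e) d := hgp.pow hp1 (by rw [he, mul_comm])
  refine ⟨((g ^ e : (ZMod p)ˣ) : ZMod p), ?_⟩
  exact IsPrimitiveRoot.coe_units_iff.2 h1

/-- The system of forms over `F_p` determines the system over every field of characteristic `p`. -/
lemma good_of_congr (hPow : TaskPow) (hJac : TaskJac) (hZero : TaskZero) (hCrit : TaskCrit)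
    {p : ℕ} [hp : Fact p.Prime] {N d : ℕ} (hd : 2 ≤ d) (hdp : d < p) (ζ : ZMod p)
    (hζ : IsPrimitiveRoot ζ d) (F : Fin (N + 1) → MvPolynomial (Fin (N + 1)) ℤ)
    (hF : ∀ i, (F i).IsHomogeneous d)
    (hFG : ∀ i (κ : Mono (N + 1) d), ((coeff (expo κ) (F i) : ℤ) : ZMod p) =
      coeff (expo κ) (GG N d ζ i)) : Good F := by
  have hbase : overR (ZMod p) F = GG N d ζ := by
    funext i
    ext μ
    simp only [overR, coeff_map]
    by_cases hμ : μ.degree = d
    · obtain ⟨κ, rfl⟩ := exists_expo μ hμ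
      exact hFG i κ
    · have h1 : coeff μ (F i) = 0 := by
        by_contra h
        exact hμ (degree_of_coeff (hF i) h)
      have h2 : coeff μ (GG N d ζ i) = 0 := by
        by_contra h
        exact hμ (degree_of_coeff (taskHom.1 (ZMod p) N d ζ i) h)
      rw [h1, h2, map_zero]
  apply hCrit p N d F hF
  intro k _ _ _
  let φ : ZMod p →+* k := ZMod.castHom (dvd_refl p) k
  have hk : overR k F = GG N d (φ ζ) := by
    rw [← overR_map φ F, hbase]
    funext i
    exact taskHom.2 (ZMod p) k φ N d ζ i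
  have hζk : IsPrimitiveRoot (φ ζ) d := hζ.map_of_injective φ.injective
  have hζ1 : φ ζ ≠ 1 := by
    intro h
    have := hζk.pow_ne_one_of_pos_of_lt one_ne_zero (by omega : 1 < d)
    rw [pow_one] at this
    exact this h
  have hdk : (d : k) ≠ 0 := by
    intro h
    rw [CharP.cast_eq_zero_iff k p] at h
    have := Nat.le_of_dvd (by omega) h
    omega
  constructor
  · intro x hx
    rw [hk] at hx
    exact hZero k N d (φ ζ) (by omega) hζ1 hζk x hx
  · intro x hx m hm hper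
    rw [hk] at hper ⊢
    rw [jac_GG, Matrix.det_mul]
    apply mul_ne_zero
    · exact taskMob.2 k N _ (sub_ne_zero.2 (Ne.symm hζ1))
    · exact hJac k N d (φ ζ) (by omega) hdk hζk x
        (taskPer taskMob hPow k N d (φ ζ) hd hζk x hx m hm hper)

theorem box_finite (n d H : ℕ) : (Box n d H).Finite := by
  apply Set.finite_of_ncard_pos
  rw [ncard_box]
  positivity

theorem main (hPow : TaskPow) (hJac : TaskJac) (hZero : TaskZero) (hCrit : TaskCrit)
    (N d : ℕ) (hd : 2 ≤ d) (M : ℕ) (hM : 0 < M)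
    (A : Fin (N + 1) → MvPolynomial (Fin (N + 1)) ℤ) (hA : ∀ i, (A i).IsHomogeneous d) :
    ∃ δ : ℝ, 0 < δ ∧ ∃ H₀ : ℕ, ∀ H : ℕ, H₀ ≤ H →
      δ * ((Box (N + 1) d H).ncard : ℝ) ≤
        (({F | F ∈ Box (N + 1) d H ∧ (∀ i μ, (M : ℤ) ∣ coeff μ (F i) - coeff μ (A i)) ∧ Good F} :
          Set (Fin (N + 1) → MvPolynomial (Fin (N + 1)) ℤ)).ncard : ℝ) := by
  obtain ⟨p, hp, hMp, hdp, ζ, hζ⟩ := exists_root d hd M
  have hcop : Nat.Coprime M p := by
    rw [Nat.coprime_comm]
    exact (Nat.Prime.coprime_iff_not_dvd hp.out).2 (Nat.not_dvd_of_pos_of_lt hM hMp)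
  -- the residues modulo `M p`
  have hcrt : ∀ a b : ℤ, ∃ z : ℤ, (M : ℤ) ∣ z - a ∧ (p : ℤ) ∣ z - b := by
    intro a b
    have hg : IsCoprime (M : ℤ) (p : ℤ) := Nat.isCoprime_iff_coprime.2 hcop
    obtain ⟨u, v, huv⟩ := hg
    refine ⟨b * (u * M) + a * (v * p), ?_, ?_⟩
    · refine ⟨(b - a) * u, ?_⟩
      linear_combination a * huv
    · refine ⟨(a - b) * v, ?_⟩
      linear_combination b * huv
  choose z hz1 hz2 using fun (i : Fin (N + 1)) (κ : Mono (N + 1) d) =>
    hcrt (coeff (expo κ) (A i)) (((coeff (expo κ) (GG N d ζ i)).val : ℕ) : ℤ)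
  obtain ⟨δ, hδ, H₀, hH₀⟩ := taskCount (N + 1) d (M * p) (Nat.mul_pos hM hp.out.pos) z
  refine ⟨δ, hδ, H₀, fun H hH => (hH₀ H hH).trans ?_⟩
  have hfin : ({F | F ∈ Box (N + 1) d H ∧
      (∀ i μ, (M : ℤ) ∣ coeff μ (F i) - coeff μ (A i)) ∧ Good F} :
      Set (Fin (N + 1) → MvPolynomial (Fin (N + 1)) ℤ)).Finite :=
    (box_finite (N + 1) d H).subset fun F hF => hF.1
  have hsub : ({F | F ∈ Box (N + 1) d H ∧ ∀ i (κ : Mono (N + 1) d),
      ((M * p : ℕ) : ℤ) ∣ coeff (expo κ) (F i) - z i κ} :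
      Set (Fin (N + 1) → MvPolynomial (Fin (N + 1)) ℤ)) ⊆
      {F | F ∈ Box (N + 1) d H ∧ (∀ i μ, (M : ℤ) ∣ coeff μ (F i) - coeff μ (A i)) ∧ Good F} := by
    rintro F ⟨hF, hc⟩
    refine ⟨hF, ?_, ?_⟩
    · intro i μ
      by_cases hμ : μ.degree = d
      · obtain ⟨κ, rfl⟩ := exists_expo μ hμ
        have h1 : (M : ℤ) ∣ coeff (expo κ) (F i) - z i κ :=
          (Int.natCast_dvd_natCast.2 (Nat.dvd_mul_right M p)).trans (hc i κ)
        have h2 := dvd_add h1 (hz1 i κ)
        have h3 : coeff (expo κ) (F i) - z i κ + (z i κ - coeff (expo κ) (A i)) =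
            coeff (expo κ) (F i) - coeff (expo κ) (A i) := by ring
        rwa [h3] at h2
      · have h1 : coeff μ (F i) = 0 := by
          by_contra h
          exact hμ (degree_of_coeff (hF i).1 h)
        have h2 : coeff μ (A i) = 0 := by
          by_contra h
          exact hμ (degree_of_coeff (hA i) h)
        rw [h1, h2, sub_zero]
        exact dvd_zero _
    · apply good_of_congr hPow hJac hZero hCrit hd hdp ζ hζ F fun i => (hF i).1
      intro i κ
      have h1 : (p : ℤ) ∣ coeff (expo κ) (F i) - z i κ :=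
        (Int.natCast_dvd_natCast.2 (Nat.dvd_mul_left p M)).trans (hc i κ)
      have h2 := dvd_add h1 (hz2 i κ)
      have h3 : coeff (expo κ) (F i) - z i κ +
          (z i κ - (((coeff (expo κ) (GG N d ζ i)).val : ℕ) : ℤ)) =
          coeff (expo κ) (F i) - (((coeff (expo κ) (GG N d ζ i)).val : ℕ) : ℤ) := by ring
      rw [h3] at h2
      have h4 := (ZMod.intCast_zmod_eq_zero_iff_dvd _ p).2 h2
      rw [Int.cast_sub, sub_eq_zero, Int.cast_natCast, ZMod.natCast_zmod_val] at h4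
      exact h4
  exact_mod_cast Set.ncard_le_ncard hsub hfin

end H294DM
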