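import Mathlib
import Pool.Agent.H927R2.RD.Core
import Pool.Agent.H927R2.RD.Coeff

set_option autoImplicit false

/-!
# Dynamical Mordell-Lang for a positive proportion of all endomorphisms of `P^N` (MP_b15c9e_ag)

The model map: the `N`-th symmetric power of `z ↦ 1 - c / z ^ d`, `c = 1 - ζ`, `ζ` a primitive
`d`-th root of unity in `F_p`, acting on the binary forms of degree `N`.
-/

namespace H294DM

open MvPolynomial Pool.Agent.H936R2 Pool.Agent.H927R2.RD

/-- The value at `(a, b)` of the binary form of degree `N` with coefficients `y`. -/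
def bf {k : Type} [CommRing k] {N : ℕ} (y : Fin (N + 1) → k) (a b : k) : k :=
  ∑ j : Fin (N + 1), y j * a ^ (j : ℕ) * b ^ (N - (j : ℕ))

/-- The generic polynomial `∑ y_j X^j` of degree `N`, with `X` replaced by `u X`. -/
noncomputable def lin {R : Type} [CommRing R] (N : ℕ) (u : R) :
    Polynomial (MvPolynomial (Fin (N + 1)) R) :=
  ∑ j : Fin (N + 1), Polynomial.C (C (u ^ (j : ℕ)) * X j) * Polynomial.X ^ (j : ℕ)

/-- `∏_{i<d} (∑ y_j (ζ^i X)^j)`. -/
noncomputable def WW {R : Type} [CommRing R] (N d : ℕ) (ζ : R) :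
    Polynomial (MvPolynomial (Fin (N + 1)) R) :=
  ∏ i ∈ Finset.range d, lin N (ζ ^ i)

/-- The forms of degree `d` of the `N`-th symmetric power of the `d`-th power map. -/
noncomputable def TT {R : Type} [CommRing R] (N d : ℕ) (ζ : R) :
    Fin (N + 1) → MvPolynomial (Fin (N + 1)) R :=
  fun l => (WW N d ζ).coeff (d * (l : ℕ))

/-- The matrix of the substitution `(u, v) ↦ (c v, v - u)` on binary forms of degree `N`. -/
def mob {R : Type} [CommRing R] (N : ℕ) (c : R) : Matrix (Fin (N + 1)) (Fin (N + 1)) R :=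
  fun j l => c ^ (l : ℕ) * (-1) ^ (j : ℕ) * (((N - (l : ℕ)).choose (j : ℕ) : ℕ) : R)

/-- The model endomorphism of `P^N` of degree `d`. -/
noncomputable def GG {R : Type} [CommRing R] (N d : ℕ) (ζ : R) :
    Fin (N + 1) → MvPolynomial (Fin (N + 1)) R :=
  fun j => ∑ l, C (mob N (1 - ζ) j l) * TT N d ζ l

/-- No root at `0` and `∞`, and no two roots `a`, `ζ^i a` with `0 < i < d`. -/
def Sep {k : Type} [CommRing k] {N : ℕ} (d : ℕ) (ζ : k) (y : Fin (N + 1) → k) : Prop :=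
  y 0 ≠ 0 ∧ y (Fin.last N) ≠ 0 ∧
    ∀ i, 0 < i → i < d → ∀ a : k, bf y a 1 = 0 → bf y (ζ ^ i * a) 1 ≠ 0

/-- Task Hom: the forms are homogeneous of degree `d`, and compatible with ring homomorphisms. -/
def TaskHom : Prop :=
  (∀ (R : Type) [CommRing R] (N d : ℕ) (ζ : R) (j : Fin (N + 1)),
    (GG N d ζ j).IsHomogeneous d) ∧
  (∀ (R R' : Type) [CommRing R] [CommRing R'] (φ : R →+* R') (N d : ℕ) (ζ : R)
    (j : Fin (N + 1)), map φ (GG N d ζ j) = GG N d (φ ζ) j)

/-- Task Pow: the roots of the image form are the `d`-th powers. -/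
def TaskPow : Prop :=
  ∀ (k : Type) [Field k] (N d : ℕ) (ζ : k), 0 < d → IsPrimitiveRoot ζ d →
    ∀ (y : Fin (N + 1) → k) (a b : k),
      bf (fun l => eval y (TT N d ζ l)) (a ^ d) (b ^ d) =
        ∏ i ∈ Finset.range d, bf y (ζ ^ i * a) b

/-- Task Mob: the Moebius substitution, and its invertibility. -/
def TaskMob : Prop :=
  (∀ (k : Type) [CommRing k] (N : ℕ) (c : k) (y : Fin (N + 1) → k) (u v : k),
    bf ((mob N c).mulVec y) u v = bf y (c * v) (v - u)) ∧
  (∀ (k : Type) [Field k] (N : ℕ) (c : k), c ≠ 0 → (mob N c).det ≠ 0)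

/-- Task Jac: the Jacobian matrix of the symmetric power of the power map is invertible at
separated forms. -/
def TaskJac : Prop :=
  ∀ (k : Type) [Field k] [IsAlgClosed k] (N d : ℕ) (ζ : k), 0 < d → (d : k) ≠ 0 →
    IsPrimitiveRoot ζ d → ∀ y : Fin (N + 1) → k, Sep d ζ y → (jac (TT N d ζ) y).det ≠ 0

/-- Task Zero: the model map has no zero. -/
def TaskZero : Prop :=
  ∀ (k : Type) [Field k] (N d : ℕ) (ζ : k), 0 < d → ζ ≠ 1 → IsPrimitiveRoot ζ d →
    ∀ y : Fin (N + 1) → k, (∀ j, eval y (GG N d ζ j) = 0) → y = 0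

/-- Task Per: periodic points are separated forms. -/
def TaskPer : Prop :=
  ∀ (k : Type) [Field k] [IsAlgClosed k] (N d : ℕ) (ζ : k), 2 ≤ d → IsPrimitiveRoot ζ d →
    ∀ y : Fin (N + 1) → k, y ≠ 0 → ∀ m : ℕ, 0 < m → (pt (GG N d ζ))^[m] y = y → Sep d ζ y

/-- Task Count: a congruence class modulo `p` has positive proportion in the boxes. -/
def TaskCount : Prop :=
  ∀ (n d p : ℕ), 0 < p → ∀ c : Fin n → Mono n d → ℤ,
    ∃ δ : ℝ, 0 < δ ∧ ∃ H₀ : ℕ, ∀ H : ℕ, H₀ ≤ H →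
      δ * ((Box n d H).ncard : ℝ) ≤
        (({F | F ∈ Box n d H ∧ ∀ i (κ : Mono n d), (p : ℤ) ∣ coeff (expo κ) (F i) - c i κ} :
          Set (Fin n → MvPolynomial (Fin n) ℤ)).ncard : ℝ)

/-- Task Crit: the criterion for an integral system congruent to a good one modulo `p`. -/
def TaskCrit : Prop :=
  ∀ (p : ℕ) [Fact p.Prime] (N d : ℕ) (F : Fin (N + 1) → MvPolynomial (Fin (N + 1)) ℤ),
    (∀ i, (F i).IsHomogeneous d) →
    (∀ (k : Type) [Field k] [IsAlgClosed k] [CharP k p],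
      (∀ x : Fin (N + 1) → k, (∀ i, eval x (overR k F i) = 0) → x = 0) ∧
      (∀ x : Fin (N + 1) → k, x ≠ 0 → ∀ m : ℕ, 0 < m → (pt (overR k F))^[m] x = x →
        (jac (overR k F) x).det ≠ 0)) →
    (∀ x : Fin (N + 1) → ℂ, (∀ i, eval x (overR ℂ F i) = 0) → x = 0) ∧
      ∀ α : Fin (N + 1) → ℂ, α ≠ 0 → DMLAt F α

end H294DM
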