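import Mathlib
import Pool.Agent.H294DM.Stmts

set_option autoImplicit false

/-!
Task Pow of project H294-DM: the roots of the image form are the `d`-th powers.
-/

namespace H294DM

open MvPolynomial

namespace PowAux

variable {k : Type} [Field k]

/-- `∑ y_j ζ^(i j) X^j`. -/
noncomputable def P (N : ℕ) (y : Fin (N + 1) → k) (u : k) : Polynomial k :=
  ∑ j : Fin (N + 1), Polynomial.C (y j * u ^ (j : ℕ)) * Polynomial.X ^ (j : ℕ)

lemma map_lin (N : ℕ) (y : Fin (N + 1) → k) (u : k) :
    (lin N u).map (eval y) = P N y u := by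
  simp only [lin, P, Polynomial.map_sum, Polynomial.map_mul, Polynomial.map_C, Polynomial.map_pow,
    Polynomial.map_X, map_mul, eval_C, eval_X]
  refine Finset.sum_congr rfl (fun j _ => ?_)
  ring

lemma P_comp (N : ℕ) (y : Fin (N + 1) → k) (u ζ : k) :
    (P N y u).comp (Polynomial.C ζ * Polynomial.X) = P N y (u * ζ) := by
  simp only [P, Polynomial.sum_comp, Polynomial.mul_comp, Polynomial.C_comp,
    Polynomial.X_comp, Polynomial.pow_comp, mul_pow, map_mul, map_pow]
  refine Finset.sum_congr rfl (fun j _ => ?_)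
  ring

lemma P_natDegree (N : ℕ) (y : Fin (N + 1) → k) (u : k) : (P N y u).natDegree ≤ N := by
  refine Polynomial.natDegree_sum_le_of_forall_le _ _ (fun j _ => ?_)
  exact (Polynomial.natDegree_C_mul_X_pow_le _ _).trans (by omega)

lemma P_coeff (N : ℕ) (y : Fin (N + 1) → k) (u : k) :
    (P N y u).coeff N = y (Fin.last N) * u ^ N := by
  simp only [P, Polynomial.finsetSum_coeff, Polynomial.coeff_C_mul, Polynomial.coeff_X_pow]
  rw [Finset.sum_eq_single (Fin.last N)]
  · simp
  · intro j _ hj
    have : N ≠ (j : ℕ) := fun h => hj (Fin.ext (by simp [← h]))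
    simp [this]
  · simp

lemma bf_eq (N : ℕ) (y : Fin (N + 1) → k) (u a b : k) (hb : b ≠ 0) :
    bf y (u * a) b = b ^ N * (P N y u).eval (a / b) := by
  simp only [bf, P, Polynomial.eval_finsetSum, Polynomial.eval_mul, Polynomial.eval_C,
    Polynomial.eval_pow, Polynomial.eval_X, Finset.mul_sum]
  refine Finset.sum_congr rfl (fun j _ => ?_)
  have hj : (j : ℕ) ≤ N := by omega
  obtain ⟨m, hm⟩ := Nat.exists_eq_add_of_le hj
  have : b ^ N = b ^ (j : ℕ) * b ^ (N - (j : ℕ)) := by
    rw [← pow_add]; congr 1; omega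
  rw [this, div_pow, mul_pow]
  field_simp

lemma bf_zero (N : ℕ) (y : Fin (N + 1) → k) (a : k) :
    bf y a 0 = y (Fin.last N) * a ^ N := by
  simp only [bf]
  rw [Finset.sum_eq_single (Fin.last N)]
  · simp
  · intro j _ hj
    have h : N - (j : ℕ) ≠ 0 := by
      have : (j : ℕ) ≠ N := fun h => hj (Fin.ext (by simp [h]))
      omega
    simp [h]
  · simp

end PowAux

open PowAux

theorem taskPow : TaskPow := by
  intro k _ N d ζ hd hζ y a b
  classical
  set W : Polynomial k := ∏ i ∈ Finset.range d, P N y (ζ ^ i) with hW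
  have hWW : (WW N d ζ).map (eval y) = W := by
    rw [WW, Polynomial.map_prod, hW]
    exact Finset.prod_congr rfl (fun i _ => map_lin N y _)
  have hT : ∀ l : Fin (N + 1), eval y (TT N d ζ l) = W.coeff (d * (l : ℕ)) := by
    intro l
    rw [TT, ← hWW, Polynomial.coeff_map]
  have hcomp : W.comp (Polynomial.C ζ * Polynomial.X) = W := by
    rw [hW, Polynomial.prod_comp]
    simp only [P_comp, ← pow_succ]
    have h1 := Finset.prod_range_succ (fun i => P N y (ζ ^ i)) d
    have h2 := Finset.prod_range_succ' (fun i => P N y (ζ ^ i)) d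
    rw [h1] at h2
    have hne : P N y (ζ ^ 0) = P N y (ζ ^ d) := by rw [hζ.pow_eq_one, pow_zero]
    rw [hne] at h2
    by_cases h0 : P N y (ζ ^ d) = 0
    · rw [pow_zero, hζ.pow_eq_one.symm] at hne
      have hz : P N y (ζ ^ 0) = 0 := by rw [pow_zero, ← hζ.pow_eq_one, h0]
      have e1 : ∏ i ∈ Finset.range d, P N y (ζ ^ i) = 0 :=
        Finset.prod_eq_zero (Finset.mem_range.2 hd) hz
      have e2 : ∏ i ∈ Finset.range d, P N y (ζ ^ (i + 1)) = 0 :=
        Finset.prod_eq_zero (i := d - 1) (Finset.mem_range.2 (by omega))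
          (by rw [Nat.sub_add_cancel hd, h0])
      rw [e1, e2]
    · exact (mul_right_cancel₀ h0 h2).symm
  have hcoef : ∀ s, ¬ d ∣ s → W.coeff s = 0 := by
    intro s hs
    have h1 : W.coeff s * ζ ^ s = W.coeff s := by
      rw [← Polynomial.comp_C_mul_X_coeff, hcomp]
    by_contra h0
    have h2 : ζ ^ s = 1 := by
      have : W.coeff s * ζ ^ s = W.coeff s * 1 := by rw [h1, mul_one]
      exact mul_left_cancel₀ h0 this
    exact hs (hζ.dvd_of_pow_eq_one s h2)
  have hdeg : W.natDegree ≤ d * N := by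
    rw [hW]
    refine (Polynomial.natDegree_prod_le _ _).trans ?_
    refine (Finset.sum_le_sum (fun i _ => P_natDegree N y (ζ ^ i))).trans ?_
    simp
  have heval : ∀ t : k, W.eval t = ∑ l : Fin (N + 1), W.coeff (d * (l : ℕ)) * t ^ (d * (l : ℕ)) := by
    intro t
    rw [Polynomial.eval_eq_sum_range' (Nat.lt_succ_of_le hdeg),
      Fin.sum_univ_eq_sum_range (fun l => W.coeff (d * l) * t ^ (d * l)) (N + 1)]
    rw [← Finset.sum_image (s := Finset.range (N + 1)) (g := fun l => d * l)
      (f := fun s => W.coeff s * t ^ s)]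
    · symm
      apply Finset.sum_subset
      · intro s hs
        obtain ⟨l, hl, rfl⟩ := Finset.mem_image.1 hs
        have hl' : l ≤ N := Nat.lt_succ_iff.1 (Finset.mem_range.1 hl)
        exact Finset.mem_range.2 (Nat.lt_succ_of_le (Nat.mul_le_mul_left d hl'))
      · intro s hs hns
        have : ¬ d ∣ s := by
          rintro ⟨l, rfl⟩
          apply hns
          refine Finset.mem_image.2 ⟨l, Finset.mem_range.2 ?_, rfl⟩
          have h3 := Nat.lt_succ_iff.1 (Finset.mem_range.1 hs)
          exact Nat.lt_succ_of_le (Nat.le_of_mul_le_mul_left h3 hd)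
        rw [hcoef s this, zero_mul]
    · intro x _ y _ hxy
      exact Nat.eq_of_mul_eq_mul_left hd hxy
  simp only [hT]
  by_cases hb : b = 0
  · subst hb
    rw [zero_pow hd.ne', bf_zero]
    simp only [bf_zero, Fin.val_last]
    have h1 : W.coeff (d * N) = ∏ i ∈ Finset.range d, (P N y (ζ ^ i)).coeff N := by
      have := Polynomial.coeff_prod_of_natDegree_le (Finset.range d)
        (fun i => P N y (ζ ^ i)) N (fun i _ => P_natDegree N y _)
      rw [Finset.card_range] at this
      rw [hW, this]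
    rw [h1]
    simp only [P_coeff, mul_pow]
    have h2 : ((a ^ d) ^ N : k) = ∏ _i ∈ Finset.range d, a ^ N := by
      rw [Finset.prod_const, Finset.card_range, ← pow_mul, ← pow_mul, Nat.mul_comm]
    rw [h2, ← Finset.prod_mul_distrib]
    exact Finset.prod_congr rfl (fun i _ => by ring)
  · have h1 : ∀ i ∈ Finset.range d, bf y (ζ ^ i * a) b = b ^ N * (P N y (ζ ^ i)).eval (a / b) :=
      fun i _ => bf_eq N y _ a b hb
    rw [Finset.prod_congr rfl h1, Finset.prod_mul_distrib, ← Polynomial.eval_prod, ← hW, heval]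
    simp only [bf, Finset.prod_const, Finset.card_range, Finset.mul_sum]
    refine Finset.sum_congr rfl (fun l _ => ?_)
    have hl : (l : ℕ) ≤ N := by omega
    have e1 : (b ^ N) ^ d = (b ^ d) ^ (N - (l : ℕ)) * b ^ (d * (l : ℕ)) := by
      rw [← pow_mul, ← pow_mul, ← pow_add]
      congr 1
      rw [← Nat.mul_add, Nat.sub_add_cancel hl, Nat.mul_comm]
    rw [e1, div_pow, pow_mul a d]
    have hb' : b ^ (d * (l : ℕ)) ≠ 0 := pow_ne_zero _ hb
    field_simp

end H294DM
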