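import Pool.Agent.H294DM.Stmts

set_option autoImplicit false

namespace H294DM

open MvPolynomial

namespace Zero

/-- evaluation of `lin` -/
noncomputable def Q {k : Type} [Field k] {N : ℕ} (y : Fin (N + 1) → k) (u : k) : Polynomial k :=
  ∑ j : Fin (N + 1), Polynomial.C (u ^ (j : ℕ) * y j) * Polynomial.X ^ (j : ℕ)

theorem lin_map {k : Type} [Field k] {N : ℕ} (y : Fin (N + 1) → k) (u : k) :
    (lin N u).map (eval y) = Q y u := by
  unfold lin Q
  rw [Polynomial.map_sum]
  apply Finset.sum_congr rfl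
  intro j _
  rw [Polynomial.map_mul, Polynomial.map_C, Polynomial.map_pow, Polynomial.map_X]
  simp

theorem Q_comp {k : Type} [Field k] {N : ℕ} (y : Fin (N + 1) → k) (u v : k) :
    (Q y u).comp (Polynomial.C v * Polynomial.X) = Q y (u * v) := by
  unfold Q
  rw [Polynomial.sum_comp]
  apply Finset.sum_congr rfl
  intro j _
  rw [Polynomial.mul_comp, Polynomial.C_comp, Polynomial.X_pow_comp, mul_pow, mul_pow]
  rw [← Polynomial.C_pow, ← mul_assoc, ← Polynomial.C_mul]
  congr 2
  ring

theorem Q_natDegree {k : Type} [Field k] {N : ℕ} (y : Fin (N + 1) → k) (u : k) :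
    (Q y u).natDegree ≤ N := by
  unfold Q
  apply Polynomial.natDegree_sum_le_of_forall_le
  intro j _
  refine (Polynomial.natDegree_C_mul_X_pow_le _ _).trans ?_
  have := j.isLt
  omega

theorem Q_coeff {k : Type} [Field k] {N : ℕ} (y : Fin (N + 1) → k) (u : k) (j : Fin (N + 1)) :
    (Q y u).coeff (j : ℕ) = u ^ (j : ℕ) * y j := by
  unfold Q
  rw [Polynomial.finsetSum_coeff, Finset.sum_eq_single j]
  · rw [Polynomial.coeff_C_mul_X_pow, if_pos rfl]
  · intro b _ hb
    rw [Polynomial.coeff_C_mul_X_pow, if_neg]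
    intro h
    exact hb (Fin.ext h.symm)
  · intro h
    exact absurd (Finset.mem_univ j) h

end Zero

theorem taskZero (h : TaskMob) : TaskZero := by
  intro k _ N d ζ hd hζ1 hζ y hy
  have hζ0 : ζ ≠ 0 := hζ.ne_zero hd.ne'
  have hdet : (mob N (1 - ζ)).det ≠ 0 := h.2 k N (1 - ζ) (sub_ne_zero.mpr hζ1.symm)
  have hT : (fun l => eval y (TT N d ζ l)) = 0 := by
    apply Matrix.eq_zero_of_mulVec_eq_zero hdet
    funext j
    have h1 := hy j
    unfold GG at h1
    rw [map_sum] at h1
    simp only [map_mul, eval_C] at h1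
    exact h1
  set W : Polynomial k := ∏ i ∈ Finset.range d, Zero.Q y (ζ ^ i) with hW
  have hWmap : (WW N d ζ).map (eval y) = W := by
    unfold WW
    rw [Polynomial.map_prod, hW]
    apply Finset.prod_congr rfl
    intro i _
    exact Zero.lin_map y _
  have hWT : ∀ l : Fin (N + 1), W.coeff (d * (l : ℕ)) = 0 := by
    intro l
    rw [← hWmap, Polynomial.coeff_map]
    exact congrFun hT l
  have hWcomp : W.comp (Polynomial.C ζ * Polynomial.X) = W := by
    rw [hW, Polynomial.prod_comp]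
    have e1 : ∀ i ∈ Finset.range d, (Zero.Q y (ζ ^ i)).comp (Polynomial.C ζ * Polynomial.X)
        = Zero.Q y (ζ ^ (i + 1)) := by
      intro i _
      rw [Zero.Q_comp, pow_succ]
    rw [Finset.prod_congr rfl e1]
    obtain ⟨e, rfl⟩ : ∃ e, d = e + 1 := ⟨d - 1, by omega⟩
    rw [Finset.prod_range_succ, Finset.prod_range_succ' (fun i => Zero.Q y (ζ ^ i)) e,
      hζ.pow_eq_one, pow_zero]
  have hWdeg : W.natDegree ≤ d * N := by
    rw [hW]
    refine (Polynomial.natDegree_prod_le _ _).trans ?_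
    refine (Finset.sum_le_card_nsmul _ _ N (fun i _ => Zero.Q_natDegree y _)).trans ?_
    simp
  have hW0 : W = 0 := by
    ext s
    rw [Polynomial.coeff_zero]
    have h2 : W.coeff s * ζ ^ s = W.coeff s := by
      conv_rhs => rw [← hWcomp]
      rw [Polynomial.comp_C_mul_X_coeff]
    by_cases hs : d ∣ s
    · obtain ⟨l, rfl⟩ := hs
      by_cases hl : l < N + 1
      · exact hWT ⟨l, hl⟩
      · apply Polynomial.coeff_eq_zero_of_natDegree_lt
        refine lt_of_le_of_lt hWdeg ?_
        apply Nat.mul_lt_mul_of_pos_left _ hd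
        omega
    · have h3 : ζ ^ s ≠ 1 := fun h4 => hs (hζ.dvd_of_pow_eq_one s h4)
      have h5 : W.coeff s * (ζ ^ s - 1) = 0 := by rw [mul_sub, h2]; ring
      rcases mul_eq_zero.mp h5 with h6 | h6
      · exact h6
      · exact absurd (sub_eq_zero.mp h6) h3
  rw [hW, Finset.prod_eq_zero_iff] at hW0
  obtain ⟨i, _, hi⟩ := hW0
  funext j
  have h7 := Zero.Q_coeff y (ζ ^ i) j
  rw [hi, Polynomial.coeff_zero] at h7
  rcases mul_eq_zero.mp h7.symm with h8 | h8
  · exact absurd h8 (pow_ne_zero _ (pow_ne_zero _ hζ0))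
  · exact h8

end H294DM
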