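import Pool.Agent.H294DM.Main
import Pool.Agent.H294DM.Count2
import Pool.Agent.H294DM.Pow
import Pool.Agent.H294DM.Jac
import Pool.Agent.H294DM.Zero
import Pool.Agent.H294DM.Crit

set_option autoImplicit false

/-! Assembly: full dynamical Mordell-Lang for a positive proportion of the endomorphisms of `P^N`
of degree `d`, in every residue class and in every real cell. -/

namespace H294DM

open MvPolynomial Pool.Agent.H936R2 Pool.Agent.H927R2.RD

theorem main2 (N d : ℕ) (hd : 2 ≤ d) (M : ℕ) (hM : 0 < M)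
    (A : Fin (N + 1) → MvPolynomial (Fin (N + 1)) ℤ) (hA : ∀ i, (A i).IsHomogeneous d)
    (B : Fin (N + 1) → MvPolynomial (Fin (N + 1)) ℝ) (hB : ∀ i, (B i).IsHomogeneous d)
    (hB1 : ∀ i μ, |coeff μ (B i)| ≤ 1) (ε : ℝ) (hε : 0 < ε) :
    ∃ δ : ℝ, 0 < δ ∧ ∃ H₀ : ℕ, ∀ H : ℕ, H₀ ≤ H →
      δ * ((Box (N + 1) d H).ncard : ℝ) ≤
        (({F | F ∈ Box (N + 1) d H ∧
          (∀ i μ, (M : ℤ) ∣ coeff μ (F i) - coeff μ (A i)) ∧
          (∀ i μ, |((coeff μ (F i) : ℤ) : ℝ) - H * coeff μ (B i)| ≤ ε * H) ∧ Good F} :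
          Set (Fin (N + 1) → MvPolynomial (Fin (N + 1)) ℤ)).ncard : ℝ) := by
  obtain ⟨p, hp, hMp, hdp, ζ, hζ⟩ := exists_root d hd M
  have hcop : Nat.Coprime M p := by
    rw [Nat.coprime_comm]
    exact (Nat.Prime.coprime_iff_not_dvd hp.out).2 (Nat.not_dvd_of_pos_of_lt hM hMp)
  -- the residues modulo `M p`
  have hcrt : ∀ a b : ℤ, ∃ z : ℤ, (M : ℤ) ∣ z - a ∧ (p : ℤ) ∣ z - b := by
    intro a b
    have hg : IsCoprime (M : ℤ) (p : ℤ) := Nat.isCoprime_iff_coprime.2 hcop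
    obtain ⟨u, v, huv⟩ := hg
    refine ⟨b * (u * M) + a * (v * p), ?_, ?_⟩
    · refine ⟨(b - a) * u, ?_⟩
      linear_combination a * huv
    · refine ⟨(a - b) * v, ?_⟩
      linear_combination b * huv
  choose z hz1 hz2 using fun (i : Fin (N + 1)) (κ : Mono (N + 1) d) =>
    hcrt (coeff (expo κ) (A i)) (((coeff (expo κ) (GG N d ζ i)).val : ℕ) : ℤ)
  obtain ⟨δ, hδ, H₀, hH₀⟩ := count2 (N + 1) d (M * p) (Nat.mul_pos hM hp.out.pos) z
    (fun i κ => coeff (expo κ) (B i)) (fun i κ => hB1 i _) ε hε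
  refine ⟨δ, hδ, H₀, fun H hH => (hH₀ H hH).trans ?_⟩
  have hfin : ({F | F ∈ Box (N + 1) d H ∧
      (∀ i μ, (M : ℤ) ∣ coeff μ (F i) - coeff μ (A i)) ∧
      (∀ i μ, |((coeff μ (F i) : ℤ) : ℝ) - H * coeff μ (B i)| ≤ ε * H) ∧ Good F} :
      Set (Fin (N + 1) → MvPolynomial (Fin (N + 1)) ℤ)).Finite :=
    (box_finite (N + 1) d H).subset fun F hF => hF.1
  have hsub : ({F | F ∈ Box (N + 1) d H ∧
      (∀ i (κ : Mono (N + 1) d), |((coeff (expo κ) (F i) : ℤ) : ℝ) -
        H * coeff (expo κ) (B i)| ≤ ε * H) ∧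
      ∀ i (κ : Mono (N + 1) d), ((M * p : ℕ) : ℤ) ∣ coeff (expo κ) (F i) - z i κ} :
      Set (Fin (N + 1) → MvPolynomial (Fin (N + 1)) ℤ)) ⊆
      {F | F ∈ Box (N + 1) d H ∧ (∀ i μ, (M : ℤ) ∣ coeff μ (F i) - coeff μ (A i)) ∧
        (∀ i μ, |((coeff μ (F i) : ℤ) : ℝ) - H * coeff μ (B i)| ≤ ε * H) ∧ Good F} := by
    rintro F ⟨hF, hr, hc⟩
    refine ⟨hF, ?_, ?_, ?_⟩
    · intro i μ
      by_cases hμ : μ.degree = d
      · obtain ⟨κ, rfl⟩ := exists_expo μ hμ
        have h1 : (M : ℤ) ∣ coeff (expo κ) (F i) - z i κ :=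
          (Int.natCast_dvd_natCast.2 (Nat.dvd_mul_right M p)).trans (hc i κ)
        have h2 := dvd_add h1 (hz1 i κ)
        have h3 : coeff (expo κ) (F i) - z i κ + (z i κ - coeff (expo κ) (A i)) =
            coeff (expo κ) (F i) - coeff (expo κ) (A i) := by ring
        rwa [h3] at h2
      · have h1 : coeff μ (F i) = 0 := by
          by_contra h
          exact hμ (degree_of_coeff (hF i).1 h)
        have h2 : coeff μ (A i) = 0 := by
          by_contra h
          exact hμ (degree_of_coeff (hA i) h)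
        rw [h1, h2, sub_zero]
        exact dvd_zero _
    · intro i μ
      by_cases hμ : μ.degree = d
      · obtain ⟨κ, rfl⟩ := exists_expo μ hμ
        exact hr i κ
      · have h1 : coeff μ (F i) = 0 := by
          by_contra h
          exact hμ (degree_of_coeff (hF i).1 h)
        have h2 : coeff μ (B i) = 0 := by
          by_contra h
          exact hμ (degree_of_coeff (hB i) h)
        rw [h1, h2, mul_zero, Int.cast_zero, sub_zero, abs_zero]
        positivity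
    · apply good_of_congr taskPow taskJac (taskZero taskMob) taskCrit hd hdp ζ hζ F
        fun i => (hF i).1
      intro i κ
      have h1 : (p : ℤ) ∣ coeff (expo κ) (F i) - z i κ :=
        (Int.natCast_dvd_natCast.2 (Nat.dvd_mul_left p M)).trans (hc i κ)
      have h2 := dvd_add h1 (hz2 i κ)
      have h3 : coeff (expo κ) (F i) - z i κ +
          (z i κ - (((coeff (expo κ) (GG N d ζ i)).val : ℕ) : ℤ)) =
          coeff (expo κ) (F i) - (((coeff (expo κ) (GG N d ζ i)).val : ℕ) : ℤ) := by ring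
      rw [h3] at h2
      have h4 := (ZMod.intCast_zmod_eq_zero_iff_dvd _ p).2 h2
      rw [Int.cast_sub, sub_eq_zero, Int.cast_natCast, ZMod.natCast_zmod_val] at h4
      exact h4
  exact_mod_cast Set.ncard_le_ncard hsub hfin

end H294DM
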