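import Pool.Agent.H294DM.Stmts

set_option autoImplicit false

/-! The roots of a periodic form are periodic points of `z ↦ 1 - c / z ^ d`. -/

namespace H294DM

open MvPolynomial Pool.Agent.H936R2 Pool.Agent.H927R2.RD

section basic

variable {k : Type} [Field k] {N : ℕ}

lemma bf_smul (y : Fin (N + 1) → k) (t a b : k) : bf y (t * a) (t * b) = t ^ N * bf y a b := by
  unfold bf
  rw [Finset.mul_sum]
  apply Finset.sum_congr rfl
  intro j _
  have h : (j : ℕ) + (N - (j : ℕ)) = N := by omega
  rw [mul_pow, mul_pow]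
  calc y j * (t ^ (j : ℕ) * a ^ (j : ℕ)) * (t ^ (N - (j : ℕ)) * b ^ (N - (j : ℕ)))
      = t ^ ((j : ℕ) + (N - (j : ℕ))) * (y j * a ^ (j : ℕ) * b ^ (N - (j : ℕ))) := by
        rw [pow_add]; ring
    _ = _ := by rw [h]

lemma bf_zero_one (y : Fin (N + 1) → k) : bf y 0 1 = y 0 := by
  unfold bf
  rw [Fin.sum_univ_succ]
  simp

lemma bf_one_zero (y : Fin (N + 1) → k) : bf y 1 0 = y (Fin.last N) := by
  unfold bf
  rw [Finset.sum_eq_single (Fin.last N)]
  · simp
  · intro j _ hj
    have h : N - (j : ℕ) ≠ 0 := by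
      intro h0
      apply hj
      apply Fin.ext
      simp only [Fin.val_last]
      have := j.2
      omega
    rw [zero_pow h, mul_zero]
  · intro h
    exact absurd (Finset.mem_univ _) h

lemma finite_roots (y : Fin (N + 1) → k) (hy : y ≠ 0) : {a : k | bf y a 1 = 0}.Finite := by
  classical
  let P : Polynomial k := ∑ j : Fin (N + 1), Polynomial.C (y j) * Polynomial.X ^ (j : ℕ)
  have hP : P ≠ 0 := by
    intro h0
    apply hy
    funext i
    have h1 : P.coeff (i : ℕ) = y i := by
      simp only [P, Polynomial.finsetSum_coeff, Polynomial.coeff_C_mul, Polynomial.coeff_X_pow]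
      rw [Finset.sum_eq_single i]
      · simp
      · intro j _ hj
        have : (i : ℕ) ≠ (j : ℕ) := fun h => hj (Fin.ext h.symm)
        simp [this]
      · intro h
        exact absurd (Finset.mem_univ _) h
    rw [h0, Polynomial.coeff_zero] at h1
    exact h1.symm
  refine (P.roots.toFinset.finite_toSet).subset ?_
  intro a ha
  simp only [Set.mem_ofPred_eq] at ha
  simp only [Finset.mem_coe, Multiset.mem_toFinset]
  rw [Polynomial.mem_roots hP, Polynomial.IsRoot, Polynomial.eval_finsetSum]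
  unfold bf at ha
  simpa using ha

end basic

/-- The map `z ↦ 1 - c / z ^ d` of the projective line. -/
noncomputable def gg {k : Type} [Field k] (d : ℕ) (c : k) : Option k → Option k :=
  fun s => by
    classical
    exact match s with
    | none => some 1
    | some a => if a = 0 then none else some (1 - c / a ^ d)

/-- The roots of a binary form on the projective line. -/
def ZZ {k : Type} [Field k] {N : ℕ} (y : Fin (N + 1) → k) : Set (Option k) :=
  fun s => match s with
  | none => bf y 1 0 = 0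
  | some a => bf y a 1 = 0

section

variable {k : Type} [Field k] {N : ℕ}

lemma mem_ZZ_none (y : Fin (N + 1) → k) : none ∈ ZZ y ↔ bf y 1 0 = 0 := Iff.rfl

lemma mem_ZZ_some (y : Fin (N + 1) → k) (a : k) : some a ∈ ZZ y ↔ bf y a 1 = 0 := Iff.rfl

lemma gg_none (d : ℕ) (c : k) : gg d c none = some 1 := rfl

lemma gg_some_zero (d : ℕ) (c : k) : gg d c (some 0) = none := by
  classical
  simp [gg]

lemma gg_some (d : ℕ) (c a : k) (ha : a ≠ 0) : gg d c (some a) = some (1 - c / a ^ d) := by
  classical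
  simp [gg, ha]

lemma ZZ_finite (y : Fin (N + 1) → k) (hy : y ≠ 0) : (ZZ y).Finite := by
  have h : ZZ y ⊆ insert none (some '' {a : k | bf y a 1 = 0}) := by
    intro s hs
    cases s with
    | none => exact Set.mem_insert _ _
    | some a => exact Set.mem_insert_of_mem _ ⟨a, hs, rfl⟩
  exact (((finite_roots y hy).image _).insert _).subset h

lemma pt_GG (N d : ℕ) (ζ : k) (y : Fin (N + 1) → k) :
    pt (GG N d ζ) y = (mob N (1 - ζ)).mulVec (fun l => eval y (TT N d ζ l)) := by
  funext j
  simp only [pt, GG, Matrix.mulVec, dotProduct, map_sum, map_mul, eval_C]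

variable (hM : TaskMob) (hPw : TaskPow)
include hM hPw

lemma bf_GG (d : ℕ) (ζ : k) (hd : 0 < d) (hζ : IsPrimitiveRoot ζ d) (y : Fin (N + 1) → k)
    (a b : k) :
    bf (pt (GG N d ζ) y) (a ^ d - (1 - ζ) * b ^ d) (a ^ d) =
      (1 - ζ) ^ N * ∏ i ∈ Finset.range d, bf y (ζ ^ i * a) b := by
  rw [pt_GG, hM.1, ← hPw k N d ζ hd hζ y a b, ← bf_smul]
  congr 1
  ring

lemma ZZ_maps [IsAlgClosed k] (d : ℕ) (ζ : k) (hd : 0 < d) (hζ : IsPrimitiveRoot ζ d)
    (hζ1 : ζ ≠ 1) (y : Fin (N + 1) → k) :
    ZZ (pt (GG N d ζ) y) = gg d (1 - ζ) '' ZZ y := by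
  have hc : (1 : k) - ζ ≠ 0 := sub_ne_zero.2 (Ne.symm hζ1)
  have hζ0 : ζ ≠ 0 := hζ.ne_zero hd.ne'
  have h0mem : (0 : ℕ) ∈ Finset.range d := Finset.mem_range.2 hd
  apply Set.Subset.antisymm
  · -- every root comes from a root
    intro t ht
    cases t with
    | none =>
      rw [mem_ZZ_none, pt_GG, hM.1] at ht
      have h1 : bf (fun l => eval y (TT N d ζ l)) ((1 - ζ) * 0) (0 - 1) =
          (-1) ^ N * bf (fun l => eval y (TT N d ζ l)) ((0 : k) ^ d) ((1 : k) ^ d) := by
        rw [← bf_smul]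
        congr 1
        · rw [zero_pow hd.ne']; ring
        · rw [one_pow]; ring
      rw [h1, hPw k N d ζ hd hζ] at ht
      have h2 : ∏ i ∈ Finset.range d, bf y (ζ ^ i * 0) 1 = 0 := by
        rcases mul_eq_zero.1 ht with h | h
        · exact absurd h (pow_ne_zero _ (by norm_num))
        · exact h
      obtain ⟨i, _, hi⟩ := Finset.prod_eq_zero_iff.1 h2
      rw [mul_zero] at hi
      exact ⟨some 0, hi, gg_some_zero d _⟩
    | some u =>
      rw [mem_ZZ_some, pt_GG, hM.1, mul_one] at ht
      by_cases hu : u = 1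
      · subst hu
        have h1 : bf (fun l => eval y (TT N d ζ l)) (1 - ζ) ((1 : k) - 1) =
            (1 - ζ) ^ N * bf (fun l => eval y (TT N d ζ l)) ((1 : k) ^ d) ((0 : k) ^ d) := by
          rw [← bf_smul]
          congr 1
          · rw [one_pow]; ring
          · rw [zero_pow hd.ne']; ring
        rw [h1, hPw k N d ζ hd hζ] at ht
        have h2 : ∏ i ∈ Finset.range d, bf y (ζ ^ i * 1) 0 = 0 := by
          rcases mul_eq_zero.1 ht with h | h
          · exact absurd h (pow_ne_zero _ hc)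
          · exact h
        obtain ⟨i, _, hi⟩ := Finset.prod_eq_zero_iff.1 h2
        have h3 : bf y (ζ ^ i * 1) 0 = (ζ ^ i) ^ N * bf y 1 0 := by
          rw [← bf_smul, mul_zero]
        rw [h3] at hi
        have h4 : bf y 1 0 = 0 := by
          rcases mul_eq_zero.1 hi with h | h
          · exact absurd h (pow_ne_zero _ (pow_ne_zero _ hζ0))
          · exact h
        exact ⟨none, h4, gg_none d _⟩
      · have hu' : (1 : k) - u ≠ 0 := sub_ne_zero.2 (Ne.symm hu)
        obtain ⟨a, ha⟩ := IsAlgClosed.exists_pow_nat_eq ((1 - ζ) / (1 - u)) hd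
        have ha0 : a ≠ 0 := by
          intro h
          rw [h, zero_pow hd.ne'] at ha
          exact div_ne_zero hc hu' ha.symm
        have h1 : bf (fun l => eval y (TT N d ζ l)) (1 - ζ) (1 - u) =
            (1 - u) ^ N * bf (fun l => eval y (TT N d ζ l)) (a ^ d) ((1 : k) ^ d) := by
          rw [← bf_smul]
          congr 1
          · rw [ha]; field_simp
          · rw [one_pow]; ring
        rw [h1, hPw k N d ζ hd hζ] at ht
        have h2 : ∏ i ∈ Finset.range d, bf y (ζ ^ i * a) 1 = 0 := by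
          rcases mul_eq_zero.1 ht with h | h
          · exact absurd h (pow_ne_zero _ hu')
          · exact h
        obtain ⟨i, _, hi⟩ := Finset.prod_eq_zero_iff.1 h2
        refine ⟨some (ζ ^ i * a), hi, ?_⟩
        rw [gg_some _ _ _ (mul_ne_zero (pow_ne_zero _ hζ0) ha0)]
        congr 1
        have h5 : (ζ ^ i * a) ^ d = a ^ d := by
          rw [mul_pow, ← pow_mul, mul_comm i d, pow_mul, hζ.pow_eq_one, one_pow, one_mul]
        rw [h5, ha]
        field_simp
        ring
  · -- roots are mapped to roots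
    rintro t ⟨s, hs, rfl⟩
    cases s with
    | none =>
      rw [gg_none, mem_ZZ_some]
      have h1 := bf_GG hM hPw d ζ hd hζ y 1 0
      have h2 : ∏ i ∈ Finset.range d, bf y (ζ ^ i * 1) 0 = 0 := by
        apply Finset.prod_eq_zero h0mem
        rw [pow_zero, mul_one]
        exact hs
      rw [h2, mul_zero, zero_pow hd.ne', one_pow, mul_zero, sub_zero] at h1
      exact h1
    | some a =>
      have h1 := bf_GG hM hPw d ζ hd hζ y a 1
      have h2 : ∏ i ∈ Finset.range d, bf y (ζ ^ i * a) 1 = 0 := by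
        apply Finset.prod_eq_zero h0mem
        rw [pow_zero, one_mul]
        exact hs
      rw [h2, mul_zero, one_pow, mul_one] at h1
      by_cases ha : a = 0
      · subst ha
        rw [gg_some_zero, mem_ZZ_none]
        rw [zero_pow hd.ne', zero_sub] at h1
        have h3 : bf (pt (GG N d ζ) y) (-(1 - ζ)) 0 =
            (-(1 - ζ)) ^ N * bf (pt (GG N d ζ) y) 1 0 := by
          rw [← bf_smul]
          congr 1
          · ring
          · ring
        rw [h3] at h1
        rcases mul_eq_zero.1 h1 with h | h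
        · exact absurd h (pow_ne_zero _ (neg_ne_zero.2 hc))
        · exact h
      · rw [gg_some _ _ _ ha, mem_ZZ_some]
        have had : a ^ d ≠ 0 := pow_ne_zero _ ha
        have h3 : bf (pt (GG N d ζ) y) (a ^ d - (1 - ζ)) (a ^ d) =
            (a ^ d) ^ N * bf (pt (GG N d ζ) y) (1 - (1 - ζ) / a ^ d) 1 := by
          rw [← bf_smul]
          congr 1
          · field_simp
          · ring
        rw [h3] at h1
        rcases mul_eq_zero.1 h1 with h | h
        · exact absurd h (pow_ne_zero _ had)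
        · exact h

lemma ZZ_iterate [IsAlgClosed k] (d : ℕ) (ζ : k) (hd : 0 < d) (hζ : IsPrimitiveRoot ζ d)
    (hζ1 : ζ ≠ 1) (y : Fin (N + 1) → k) (n : ℕ) :
    ZZ ((pt (GG N d ζ))^[n] y) = (gg d (1 - ζ))^[n] '' ZZ y := by
  induction n with
  | zero => simp
  | succ n ih =>
    rw [Function.iterate_succ_apply', ZZ_maps hM hPw d ζ hd hζ hζ1, ih, Function.iterate_succ',
      Set.image_comp]

end

lemma gg_iter_fixed {k : Type} [Field k] (d : ℕ) (ζ : k) (hζ0 : ζ ≠ 0) (hζd : ζ ^ d = 1)
    (n : ℕ) : (gg d (1 - ζ))^[n] (some ζ) = some ζ := by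
  induction n with
  | zero => rfl
  | succ n ih =>
    rw [Function.iterate_succ_apply', ih, gg_some _ _ _ hζ0, hζd]
    congr 1
    ring

lemma gg_iter_none {k : Type} [Field k] (d : ℕ) (ζ : k) (hζ0 : ζ ≠ 0) (hζd : ζ ^ d = 1)
    (n : ℕ) (hn : 2 ≤ n) : (gg d (1 - ζ))^[n] none = some ζ := by
  obtain ⟨m, rfl⟩ := Nat.exists_eq_add_of_le hn
  rw [Nat.add_comm, Function.iterate_add_apply]
  have h : (gg d (1 - ζ))^[2] none = some ζ := by
    rw [Function.iterate_succ_apply', Function.iterate_one, gg_none, gg_some _ _ _ one_ne_zero,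
      one_pow]
    congr 1
    ring
  rw [h, gg_iter_fixed d ζ hζ0 hζd]

theorem taskPer (hM : TaskMob) (hPw : TaskPow) : TaskPer := by
  intro k _ _ N d ζ hd2 hζ y hy m hm hper
  have hd : 0 < d := by omega
  have hζ0 : ζ ≠ 0 := hζ.ne_zero hd.ne'
  have hζ1 : ζ ≠ 1 := by
    intro h
    have := hζ.pow_ne_one_of_pos_of_lt one_ne_zero (by omega : 1 < d)
    rw [pow_one] at this
    exact this h
  have hζd : ζ ^ d = 1 := hζ.pow_eq_one
  have hper3 : (pt (GG N d ζ))^[m * 3] y = y := by
    rw [Function.iterate_mul]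
    have h : Function.IsFixedPt ((pt (GG N d ζ))^[m]) y := hper
    exact h.iterate 3
  have himg : (gg d (1 - ζ))^[m * 3] '' ZZ y = ZZ y := by
    rw [← ZZ_iterate hM hPw d ζ hd hζ hζ1, hper3]
  have hinj : Set.InjOn (gg d (1 - ζ))^[m * 3] (ZZ y) :=
    (ZZ_finite y hy).injOn_of_encard_image_eq (by rw [himg])
  have h3 : 3 ≤ m * 3 := by omega
  have hnone : none ∉ ZZ y := by
    intro h
    have e1 := gg_iter_none d ζ hζ0 hζd (m * 3) (by omega)
    have h2 : some ζ ∈ ZZ y := by
      rw [← himg, ← e1]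
      exact ⟨none, h, rfl⟩
    have e2 := gg_iter_fixed d ζ hζ0 hζd (m * 3)
    have := hinj h h2 (e1.trans e2.symm)
    exact absurd this (by simp)
  have hzero : some (0 : k) ∉ ZZ y := by
    intro h
    have e1 : (gg d (1 - ζ))^[m * 3] (some 0) = some ζ := by
      obtain ⟨n, hn⟩ : ∃ n, m * 3 = n + 1 := ⟨m * 3 - 1, by omega⟩
      rw [hn, Function.iterate_succ_apply, gg_some_zero]
      exact gg_iter_none d ζ hζ0 hζd n (by omega)
    have h2 : some ζ ∈ ZZ y := by
      rw [← himg, ← e1]
      exact ⟨_, h, rfl⟩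
    have e2 := gg_iter_fixed d ζ hζ0 hζd (m * 3)
    have h4 := hinj h h2 (e1.trans e2.symm)
    exact hζ0 (Option.some_injective _ h4).symm
  refine ⟨?_, ?_, ?_⟩
  · rw [← bf_zero_one y]
    exact hzero
  · rw [← bf_one_zero y]
    exact hnone
  · intro i hi0 hid a ha1 ha2
    have ha0 : a ≠ 0 := by
      rintro rfl
      exact hzero ha1
    have hia : ζ ^ i * a ≠ 0 := mul_ne_zero (pow_ne_zero _ hζ0) ha0
    have h5 : gg d (1 - ζ) (some a) = gg d (1 - ζ) (some (ζ ^ i * a)) := by
      rw [gg_some _ _ _ ha0, gg_some _ _ _ hia]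
      have h5 : (ζ ^ i * a) ^ d = a ^ d := by
        rw [mul_pow, ← pow_mul, mul_comm i d, pow_mul, hζd, one_pow, one_mul]
      rw [h5]
    have h6 : (gg d (1 - ζ))^[m * 3] (some a) = (gg d (1 - ζ))^[m * 3] (some (ζ ^ i * a)) := by
      obtain ⟨n, hn⟩ : ∃ n, m * 3 = n + 1 := ⟨m * 3 - 1, by omega⟩
      rw [hn, Function.iterate_succ_apply, Function.iterate_succ_apply, h5]
    have h7 := Option.some_injective _ (hinj (x₁ := some a) ha1 (x₂ := some (ζ ^ i * a)) ha2 h6)
    have h8 : ζ ^ i = 1 := by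
      have : (ζ ^ i - 1) * a = 0 := by linear_combination -h7
      rcases mul_eq_zero.1 this with h | h
      · exact sub_eq_zero.1 h
      · exact absurd h ha0
    exact hζ.pow_ne_one_of_pos_of_lt hi0.ne' hid h8

end H294DM
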